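import Pool.Agent.Q35.TT.Stm4

/-!
# Project TT (helper35), job MZF: from the affine charts to the projective varieties and their twists
-/

set_option autoImplicit false
set_option linter.unusedSectionVars false

open MvPolynomial Pool.Agent.Q35.TT

namespace Pool.Agent.Q68.TT.Mzf

section basic

variable {n : ℕ}

/-- the affine coordinates in a chart -/
def zc {F : Type} [Field F] (ε : Fin n → Fin 2) (x : Fin n × Fin 2 → F) (j : Fin n) : F :=
  x (j, Fin.rev (ε j)) / x (j, ε j)

lemma fin2 : ∀ {a b : Fin 2}, a ≠ b → a = Fin.rev b := by decide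

lemma rev_ne : ∀ b : Fin 2, Fin.rev b ≠ b := by decide

lemma pt_self {R : Type} [One R] (ε : Fin n → Fin 2) (z : Fin n → R) (j : Fin n) :
    pt ε z (j, ε j) = 1 := if_pos rfl

lemma pt_rev {R : Type} [One R] (ε : Fin n → Fin 2) (z : Fin n → R) (j : Fin n) :
    pt ε z (j, Fin.rev (ε j)) = z j := if_neg (rev_ne (ε j))

lemma pt_zc {F : Type} [Field F] (ε : Fin n → Fin 2) (x : Fin n × Fin 2 → F)
    (hx : ∀ j, x (j, ε j) ≠ 0) (p : Fin n × Fin 2) :
    x (p.1, ε p.1) * pt ε (zc ε x) p = x p := by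
  obtain ⟨j, b⟩ := p
  by_cases h : b = ε j
  · subst h
    change x (j, ε j) * pt ε (zc ε x) (j, ε j) = _
    rw [pt_self, mul_one]
  · have h2 := fin2 h
    subst h2
    change x (j, ε j) * pt ε (zc ε x) (j, Fin.rev (ε j)) = _
    rw [pt_rev, zc, mul_div_cancel₀ _ (hx j)]

lemma pt_map {R S : Type} [CommRing R] [CommRing S] (φ : R →+* S) (ε : Fin n → Fin 2) (z : Fin n → R)
    (p : Fin n × Fin 2) : φ (pt ε z p) = pt ε (fun j => φ (z j)) p := by
  unfold pt
  split_ifs
  · exact map_one φ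
  · rfl

lemma zc_scale {F : Type} [Field F] (ε : Fin n → Fin 2) (a : Fin n → F) (ha : ∀ j, a j ≠ 0)
    (x : Fin n × Fin 2 → F) : zc ε (fun p => a p.1 * x p) = zc ε x := by
  funext j
  exact mul_div_mul_left _ _ (ha j)

lemma zc_map {F G : Type} [Field F] [Field G] (φ : F →+* G) (ε : Fin n → Fin 2)
    (x : Fin n × Fin 2 → F) : zc ε (fun p => φ (x p)) = fun j => φ (zc ε x j) := by
  funext j
  exact (map_div₀ φ _ _).symm

lemma zc_pt {F : Type} [Field F] (ε : Fin n → Fin 2) (z : Fin n → F) : zc ε (pt ε z) = z := by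
  funext j
  rw [zc, pt_self, pt_rev, div_one]

/-- the pairs of coordinates are not zero where the form does not vanish -/
lemma pair_ne {R : Type} [CommRing R] (E : (Fin n × Fin 2 → R) → R)
    (hE : ∀ x (a : Fin n → R), E (fun p => a p.1 * x p) = (∏ j, a j) ^ 4 * E x)
    {x : Fin n × Fin 2 → R} (h : E x ≠ 0) (j : Fin n) : ∃ b, x (j, b) ≠ 0 := by
  classical
  by_contra hno
  push Not at hno
  apply h
  have h1 := hE x (fun i => if i = j then 0 else 1)
  have h2 : (fun p : Fin n × Fin 2 => (if p.1 = j then (0 : R) else 1) * x p) = x := by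
    funext p
    obtain ⟨i, b⟩ := p
    by_cases hi : i = j
    · subst hi
      rw [hno b, mul_zero]
    · change (if i = j then (0 : R) else 1) * x (i, b) = _
      rw [if_neg hi, one_mul]
  have h3 : (∏ i : Fin n, if i = j then (0 : R) else 1) = 0 :=
    Finset.prod_eq_zero (Finset.mem_univ j) (if_pos rfl)
  rw [h2, h3, zero_pow (by norm_num), zero_mul] at h1
  exact h1

lemma eval₂_ch {K L : Type} [Field K] [Field L] (σ : K →+* L) (F : MvPolynomial (Fin n × Fin 2) K)
    (ε : Fin n → Fin 2) (z : Fin n → L) : eval₂ σ z (ch F ε) = eval₂ σ (pt ε z) F := by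
  have h : (eval₂Hom σ z).comp
      (aeval (fun p : Fin n × Fin 2 => if p.2 = ε p.1 then 1 else X p.1) :
        MvPolynomial (Fin n × Fin 2) K →ₐ[K] MvPolynomial (Fin n) K).toRingHom =
      eval₂Hom σ (pt ε z) := by
    apply MvPolynomial.ringHom_ext
    · intro r
      simp
    · intro p
      by_cases hp : p.2 = ε p.1
      · simp [pt, hp]
      · simp [pt, hp]
  exact congrArg (fun φ => φ F) h

end basic

section chart

variable {K : Type} [Field K] {n : ℕ}

/-- The coordinates `((∏ a)² w, a x)`. -/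
def cd {A : Type} [CommRing A] (a : Fin n → A) (W : A) (x : Fin n × Fin 2 → A) :
    Option (Fin n × Fin 2) → A :=
  fun o => o.elim ((∏ j, a j) ^ 2 * W) fun p => a p.1 * x p

/-- The substitution of a chart. -/
noncomputable def Ph (ε : Fin n → Fin 2) : MvPolynomial (Option (Fin n × Fin 2)) K →ₐ[K]
    MvPolynomial (Fin n) (MvPolynomial (Option (Fin n)) K) :=
  aeval (cd (fun j => X j) (C (X none)) fun p => C (pt ε (fun j => X (some j)) p))

lemma ph_eval (ε : Fin n → Fin 2) (g : MvPolynomial (Option (Fin n × Fin 2)) K) (W : K)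
    (z a : Fin n → K) :
    eval a (MvPolynomial.map (eval (fun o : Option (Fin n) => o.elim W z)) (Ph ε g)) =
      eval (cd a W (pt ε z)) g := by
  have h : ((eval a).comp ((MvPolynomial.map (eval (fun o : Option (Fin n) => o.elim W z))).comp
      (Ph (K := K) ε : _ →+* _))) = eval (cd a W (pt ε z)) := by
    apply MvPolynomial.ringHom_ext
    · intro r
      simp [Ph, MvPolynomial.algebraMap_eq, IsScalarTower.algebraMap_apply K
        (MvPolynomial (Option (Fin n)) K) (MvPolynomial (Fin n) (MvPolynomial (Option (Fin n)) K))]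
    · rintro (_ | p)
      · simp [Ph, cd]
      · have h1 := pt_map (eval (fun o : Option (Fin n) => o.elim W z)) ε
          (fun j => (X (some j) : MvPolynomial (Option (Fin n)) K)) p
        simp only [eval_X, Option.elim] at h1
        simp only [RingHom.comp_apply, RingHom.coe_coe, Ph, aeval_X, cd, Option.elim, map_mul, map_X,
          eval_X, map_C, eval_C, h1]
  exact congrArg (fun g' => g' g) h

lemma ph_iff [Infinite K] (ε : Fin n → Fin 2) (g : MvPolynomial (Option (Fin n × Fin 2)) K) (W : K)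
    (z : Fin n → K) :
    (∀ a : Fin n → K, eval (cd a W (pt ε z)) g = 0) ↔
      ∀ k, eval (fun o : Option (Fin n) => o.elim W z) (coeff k (Ph ε g)) = 0 := by
  constructor
  · intro h
    have h0 : MvPolynomial.map (eval (fun o : Option (Fin n) => o.elim W z)) (Ph ε g) = 0 := by
      apply MvPolynomial.funext
      intro a
      rw [ph_eval, h, map_zero]
    intro k
    have := congrArg (coeff k) h0
    rw [coeff_map, coeff_zero] at this
    exact this
  · intro h a
    have h0 : MvPolynomial.map (eval (fun o : Option (Fin n) => o.elim W z)) (Ph ε g) = 0 := by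
      ext k
      rw [coeff_map, h k, coeff_zero]
    rw [← ph_eval, h0, map_zero]

end chart

section loc

variable {K L : Type} [Field K] [Infinite K] [NontriviallyNormedField L] {n : ℕ}

lemma cont_pt (ε : Fin n → Fin 2) : Continuous (fun z : Fin n → L => pt ε z) := by
  refine continuous_pi fun p => ?_
  by_cases h : p.2 = ε p.1
  · simp only [pt, if_pos h]
    exact continuous_const
  · simp only [pt, if_neg h]
    exact continuous_apply p.1

lemma open_ne (ε : Fin n → Fin 2) : IsOpen {x : Fin n × Fin 2 → L | ∀ j, x (j, ε j) ≠ 0} := by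
  have h1 : {x : Fin n × Fin 2 → L | ∀ j, x (j, ε j) ≠ 0} =
      ⋂ j, {x : Fin n × Fin 2 → L | x (j, ε j) ≠ 0} := by
    ext x
    simp
  rw [h1]
  exact isOpen_iInter_of_finite fun j => isOpen_ne.preimage (continuous_apply (j, ε j))

lemma cont_zc (ε : Fin n → Fin 2) {x : Fin n × Fin 2 → L} (hx : ∀ j, x (j, ε j) ≠ 0) :
    ContinuousAt (fun y : Fin n × Fin 2 → L => zc ε y) x := by
  refine continuousAt_pi.2 fun j => ?_
  exact ContinuousAt.div (continuous_apply _).continuousAt (continuous_apply _).continuousAt (hx j)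

lemma locF_iff (σ : K →+* L) {ε : Fin n → Fin 2} {G : MvPolynomial (Fin n × Fin 2) K}
    {f : MvPolynomial (Fin n) K} (hGf : ∀ z : Fin n → K, eval z f = eval (pt ε z) G)
    (hGs : ∀ (X : Fin n × Fin 2 → K) (a : Fin n → K), eval (fun p => a p.1 * X p) G =
      (∏ j, a j) ^ 4 * eval X G) (w : L) (x : Fin n × Fin 2 → L) (hx : ∀ j, x (j, ε j) ≠ 0)
    (g : MvPolynomial (Option (Fin n × Fin 2)) K) :
    g ∈ locF σ G w x ↔
      ∀ k, coeff k (Ph ε g) ∈ locN σ f (w / (∏ j, x (j, ε j)) ^ 2) (zc ε x) := by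
  have hP : (∏ j, x (j, ε j)) ^ 2 ≠ 0 := pow_ne_zero 2 (Finset.prod_ne_zero_iff.2 fun j _ => hx j)
  constructor
  · rintro ⟨U, hU, h⟩ k
    obtain ⟨m, hm⟩ : ∃ m : L × (Fin n → L) → L × (Fin n × Fin 2 → L), m = fun v =>
      ((∏ j, x (j, ε j)) ^ 2 * v.1, fun p => x (p.1, ε p.1) * pt ε v.2 p) := ⟨_, rfl⟩
    have hmc : Continuous m := by
      rw [hm]
      refine Continuous.prodMk (continuous_const.mul continuous_fst) ?_
      refine continuous_pi fun p => continuous_const.mul ?_
      exact (continuous_apply p).comp ((cont_pt ε).comp continuous_snd)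
    have hmp : m (w / (∏ j, x (j, ε j)) ^ 2, zc ε x) = (w, x) := by
      rw [hm]
      refine Prod.ext ?_ ?_
      · exact mul_div_cancel₀ w hP
      · funext p
        exact pt_zc ε x hx p
    refine ⟨m ⁻¹' U, hmc.continuousAt (by rw [hmp]; exact hU), fun W z hW hU' => ?_⟩
    refine (ph_iff ε g W z).1 (fun a => ?_) k
    refine h W (pt ε z) (fun j => ⟨ε j, by rw [pt_self]; exact one_ne_zero⟩) (by rw [← hGf]; exact hW)
      ⟨fun j => x (j, ε j), hx, ?_⟩ a
    have e : ((∏ j, x (j, ε j)) ^ 2 * σ W, fun p : Fin n × Fin 2 => x (p.1, ε p.1) * σ (pt ε z p)) =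
        m (σ W, fun i => σ (z i)) := by
      rw [hm]
      refine Prod.ext rfl ?_
      funext p
      change _ = x (p.1, ε p.1) * pt ε (fun i => σ (z i)) p
      rw [← pt_map]
    rw [e]
    exact hU'
  · intro h
    choose U hU hU' using h
    have hV : (⋂ k ∈ (Ph ε g).support, U k) ∈ nhds (w / (∏ j, x (j, ε j)) ^ 2, zc ε x) :=
      (Filter.biInter_finset_mem _).2 (fun k _ => hU k)
    obtain ⟨N, hN⟩ : ∃ N : L × (Fin n × Fin 2 → L) → L × (Fin n → L), N = fun y =>
      (y.1 / (∏ j, y.2 (j, ε j)) ^ 2, zc ε y.2) := ⟨_, rfl⟩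
    have hn : ContinuousAt N (w, x) := by
      rw [hN]
      refine ContinuousAt.prodMk (ContinuousAt.div continuous_fst.continuousAt ?_ hP) ?_
      · exact ((continuous_finsetProd _ fun j _ =>
          (continuous_apply (j, ε j)).comp continuous_snd).pow 2).continuousAt
      · exact ContinuousAt.comp (f := fun y : L × (Fin n × Fin 2 → L) => y.2)
          (g := fun y : Fin n × Fin 2 → L => zc ε y) (cont_zc ε hx) continuous_snd.continuousAt
    have hNp : N (w, x) = (w / (∏ j, x (j, ε j)) ^ 2, zc ε x) := by rw [hN]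
    refine ⟨N ⁻¹' (⋂ k ∈ (Ph ε g).support, U k) ∩ {y | ∀ j, y.2 (j, ε j) ≠ 0},
      Filter.inter_mem (hn (by rw [hNp]; exact hV)) ?_, ?_⟩
    · exact ((open_ne (L := L) ε).preimage continuous_snd).mem_nhds hx
    · rintro W X hX hW ⟨a', ha', hz1, hz2⟩ a
      have hX0 : ∀ j, X (j, ε j) ≠ 0 := by
        intro j h0
        apply hz2 j
        change a' j * σ (X (j, ε j)) = 0
        rw [h0, map_zero, mul_zero]
      have hPX : (∏ j, X (j, ε j)) ≠ 0 := Finset.prod_ne_zero_iff.2 fun j _ => hX0 j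
      have hPa : (∏ j, a' j) ≠ 0 := Finset.prod_ne_zero_iff.2 fun j _ => ha' j
      have hXe : (fun p : Fin n × Fin 2 => X (p.1, ε p.1) * pt ε (zc ε X) p) = X :=
        funext fun p => pt_zc ε X hX0 p
      have hu : (W / (∏ j, X (j, ε j)) ^ 2) ^ 2 = eval (zc ε X) f := by
        have h1 := hGs (pt ε (zc ε X)) (fun j => X (j, ε j))
        rw [hXe, ← hGf] at h1
        rw [div_pow, hW, h1, ← pow_mul]
        exact mul_div_cancel_left₀ _ (pow_ne_zero _ hPX)
      have hσ : (σ (W / (∏ j, X (j, ε j)) ^ 2), fun i => σ (zc ε X i)) ∈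
          (⋂ k ∈ (Ph ε g).support, U k) := by
        have e : (σ (W / (∏ j, X (j, ε j)) ^ 2), fun i => σ (zc ε X i)) =
            N ((∏ j, a' j) ^ 2 * σ W, fun p => a' p.1 * σ (X p)) := by
          rw [hN]
          refine Prod.ext ?_ ?_
          · change σ (W / (∏ j, X (j, ε j)) ^ 2) =
              (∏ j, a' j) ^ 2 * σ W / (∏ j, a' j * σ (X (j, ε j))) ^ 2
            rw [Finset.prod_mul_distrib, mul_pow, mul_div_mul_left _ _ (pow_ne_zero 2 hPa), map_div₀,
              map_pow, map_prod]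
          · change (fun i => σ (zc ε X i)) = zc ε (fun p => a' p.1 * σ (X p))
            rw [zc_scale ε a' ha' (fun p => σ (X p)), zc_map]
        rw [e]
        exact hz1
      have hk : ∀ k, eval (fun o : Option (Fin n) => o.elim (W / (∏ j, X (j, ε j)) ^ 2) (zc ε X))
          (coeff k (Ph ε g)) = 0 := by
        intro k
        by_cases hk : k ∈ (Ph ε g).support
        · exact hU' k _ _ hu (Set.mem_iInter₂.1 hσ k hk)
        · rw [MvPolynomial.notMem_support_iff.1 hk, map_zero]
      have h3 := (ph_iff ε g _ _).2 hk (fun j => a j * X (j, ε j))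
      have e : cd (fun j => a j * X (j, ε j)) (W / (∏ j, X (j, ε j)) ^ 2) (pt ε (zc ε X)) =
          fun o : Option (Fin n × Fin 2) => o.elim ((∏ j, a j) ^ 2 * W) fun p => a p.1 * X p := by
        funext o
        rcases o with _ | p
        · change (∏ j, a j * X (j, ε j)) ^ 2 * (W / (∏ j, X (j, ε j)) ^ 2) = (∏ j, a j) ^ 2 * W
          rw [Finset.prod_mul_distrib, mul_pow, mul_assoc, mul_div_cancel₀ W (pow_ne_zero 2 hPX)]
        · change a p.1 * X (p.1, ε p.1) * pt ε (zc ε X) p = a p.1 * X p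
          rw [mul_assoc, pt_zc ε X hX0 p]
      rw [e] at h3
      exact h3

/-- homogeneous forms of polynomials in the chart -/
lemma homog (ε : Fin n → Fin 2) (g : MvPolynomial (Fin n) K) :
    ∃ (N : ℕ) (h : MvPolynomial (Fin n × Fin 2) K), ∀ X : Fin n × Fin 2 → K,
      (∀ j, X (j, ε j) ≠ 0) → eval X h = (∏ j, X (j, ε j)) ^ N * eval (zc ε X) g := by
  classical
  induction g using MvPolynomial.induction_on with
  | C r =>
    refine ⟨0, C r, fun X _ => ?_⟩
    rw [pow_zero, one_mul, eval_C, eval_C]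
  | add g1 g2 h1 h2 =>
    obtain ⟨N1, k1, h1⟩ := h1
    obtain ⟨N2, k2, h2⟩ := h2
    refine ⟨N1 + N2, (∏ j, MvPolynomial.X (j, ε j)) ^ N2 * k1 +
      (∏ j, MvPolynomial.X (j, ε j)) ^ N1 * k2, fun X hX => ?_⟩
    rw [map_add, map_mul, map_mul, map_pow, map_pow, map_prod, h1 X hX, h2 X hX, map_add]
    simp only [eval_X]
    ring
  | mul_X g i h1 =>
    obtain ⟨N1, k1, h1⟩ := h1
    refine ⟨N1 + 1, k1 * (MvPolynomial.X (i, Fin.rev (ε i)) *
      ∏ j ∈ Finset.univ.erase i, MvPolynomial.X (j, ε j)), fun X hX => ?_⟩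
    rw [map_mul, map_mul, map_prod, h1 X hX, map_mul]
    simp only [eval_X]
    rw [pow_succ, ← Finset.mul_prod_erase Finset.univ (fun j => X (j, ε j)) (Finset.mem_univ i)]
    have h2 : X (i, ε i) * zc ε X i = X (i, Fin.rev (ε i)) := mul_div_cancel₀ _ (hX i)
    linear_combination (-((X (i, ε i) * ∏ j ∈ Finset.univ.erase i, X (j, ε j)) ^ N1 * eval (zc ε X) g *
      ∏ j ∈ Finset.univ.erase i, X (j, ε j))) * h2

/-- the local ideals of the branch divisor -/
lemma locB_iff (σ : K →+* L) {ε : Fin n → Fin 2} {F : MvPolynomial (Fin n × Fin 2) K}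
    {f : MvPolynomial (Fin n) K} (hGf : ∀ z : Fin n → K, eval z f = 0 ↔ eval (pt ε z) F = 0)
    (hGs : ∀ (X : Fin n × Fin 2 → K) (a : Fin n → K), eval (fun p => a p.1 * X p) F =
      (∏ j, a j) ^ 4 * eval X F) (z : Fin n → L) (g : MvPolynomial (Fin n) K) {N : ℕ}
    {h : MvPolynomial (Fin n × Fin 2) K} (hh : ∀ X : Fin n × Fin 2 → K,
      (∀ j, X (j, ε j) ≠ 0) → eval X h = (∏ j, X (j, ε j)) ^ N * eval (zc ε X) g) :
    (∃ U ∈ nhds z, ∀ z' : Fin n → K, eval z' f = 0 → (fun i => σ (z' i)) ∈ U → eval z' g = 0) ↔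
      h ∈ locB σ F (pt ε z) := by
  have hpz : ∀ j, pt ε z (j, ε j) ≠ 0 := fun j => by
    rw [pt_self]
    exact one_ne_zero
  constructor
  · rintro ⟨U, hU, hg⟩
    refine ⟨(fun y => zc ε y) ⁻¹' U ∩ {y | ∀ j, y (j, ε j) ≠ 0}, Filter.inter_mem
      (cont_zc ε hpz (by
        change U ∈ nhds (zc ε (pt ε z))
        rw [zc_pt]
        exact hU)) ((open_ne (L := L) ε).mem_nhds hpz), ?_⟩
    rintro X hX hF ⟨a', ha', hz1, hz2⟩ a
    have hX0 : ∀ j, X (j, ε j) ≠ 0 := by
      intro j h0
      apply hz2 j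
      change a' j * σ (X (j, ε j)) = 0
      rw [h0, map_zero, mul_zero]
    have hXe : (fun p : Fin n × Fin 2 => X (p.1, ε p.1) * pt ε (zc ε X) p) = X :=
      funext fun p => pt_zc ε X hX0 p
    have hPX : (∏ j, X (j, ε j)) ≠ 0 := Finset.prod_ne_zero_iff.2 fun j _ => hX0 j
    have h1 := hGs (pt ε (zc ε X)) (fun j => X (j, ε j))
    rw [hXe, hF] at h1
    have h2 : eval (zc ε X) f = 0 := by
      rw [hGf]
      exact (mul_eq_zero.1 h1.symm).resolve_left (pow_ne_zero _ hPX)
    have h3 : eval (zc ε X) g = 0 := by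
      refine hg _ h2 ?_
      have e : zc ε (fun p => a' p.1 * σ (X p)) = fun i => σ (zc ε X i) := by
        rw [zc_scale ε a' ha' (fun p => σ (X p)), zc_map]
      rw [← e]
      exact hz1
    -- the polynomial `h` at multiples
    have hvan : ∀ b : Fin n → K, (∀ j, b j ≠ 0) → eval (fun p => b p.1 * X p) h = 0 := by
      intro b hb
      rw [hh _ fun j => mul_ne_zero (hb j) (hX0 j), zc_scale ε b hb, h3, mul_zero]
    -- all multiples
    have hpoly : (aeval (fun p : Fin n × Fin 2 => MvPolynomial.X p.1 * C (X p)) h :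
        MvPolynomial (Fin n) K) * ∏ j, MvPolynomial.X j = 0 := by
      apply MvPolynomial.funext
      intro b
      have e : eval b (aeval (fun p : Fin n × Fin 2 => MvPolynomial.X p.1 * C (X p)) h :
          MvPolynomial (Fin n) K) = eval (fun p => b p.1 * X p) h := by
        have e1 : (eval b).comp ((aeval (fun p : Fin n × Fin 2 => MvPolynomial.X p.1 * C (X p)) :
            MvPolynomial (Fin n × Fin 2) K →ₐ[K] MvPolynomial (Fin n) K).toRingHom) =
            eval (fun p : Fin n × Fin 2 => b p.1 * X p) := by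
          apply MvPolynomial.ringHom_ext
          · intro r
            simp
          · intro p
            simp
        exact congrArg (fun φ => φ h) e1
      rw [map_mul, e, map_prod, map_zero]
      simp only [eval_X]
      by_cases hb : ∀ j, b j ≠ 0
      · rw [hvan b hb, zero_mul]
      · push Not at hb
        obtain ⟨j, hj⟩ := hb
        rw [Finset.prod_eq_zero (Finset.mem_univ j) hj, mul_zero]
    have hpoly2 : (aeval (fun p : Fin n × Fin 2 => MvPolynomial.X p.1 * C (X p)) h :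
        MvPolynomial (Fin n) K) = 0 :=
      (mul_eq_zero.1 hpoly).resolve_right (Finset.prod_ne_zero_iff.2 fun j _ => X_ne_zero j)
    have e : eval a (aeval (fun p : Fin n × Fin 2 => MvPolynomial.X p.1 * C (X p)) h :
        MvPolynomial (Fin n) K) = eval (fun p => a p.1 * X p) h := by
      have e1 : (eval a).comp ((aeval (fun p : Fin n × Fin 2 => MvPolynomial.X p.1 * C (X p)) :
          MvPolynomial (Fin n × Fin 2) K →ₐ[K] MvPolynomial (Fin n) K).toRingHom) =
          eval (fun p : Fin n × Fin 2 => a p.1 * X p) := by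
        apply MvPolynomial.ringHom_ext
        · intro r
          simp
        · intro p
          simp
      exact congrArg (fun φ => φ h) e1
    rw [← e, hpoly2, map_zero]
  · rintro ⟨U, hU, hg⟩
    refine ⟨(fun y => pt ε y) ⁻¹' U, (cont_pt ε).continuousAt hU, fun z' hz' hU' => ?_⟩
    have h1 := hg (pt ε z') (fun j => ⟨ε j, by rw [pt_self]; exact one_ne_zero⟩) ((hGf z').1 hz')
      ⟨fun _ => 1, fun _ => one_ne_zero, ?_⟩ (fun _ => 1)
    · simp only [one_mul] at h1
      rw [hh _ fun j => by rw [pt_self]; exact one_ne_zero, zc_pt] at h1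
      simpa only [pt_self, Finset.prod_const_one, one_pow, one_mul] using h1
    · have e : (fun p : Fin n × Fin 2 => (1 : L) * σ (pt ε z' p)) = pt ε (fun i => σ (z' i)) := by
        funext p
        rw [one_mul, pt_map]
      rw [e]
      exact hU'

end loc

section dvd

variable {K : Type} [Field K] [Infinite K] {n : ℕ}

/-- evaluation, with `w` as a variable -/
noncomputable def Ev (ε : Fin n → Fin 2) (a z : Fin n → K) :
    MvPolynomial (Option (Fin n × Fin 2)) K →+* Polynomial K :=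
  eval₂Hom Polynomial.C (fun o : Option (Fin n × Fin 2) =>
    o.elim (Polynomial.C ((∏ j, a j) ^ 2) * Polynomial.X) fun p => Polynomial.C (a p.1 * pt ε z p))

/-- evaluation, with `w` as a variable, in the chart -/
noncomputable def Th (z : Fin n → K) : MvPolynomial (Option (Fin n)) K →+* Polynomial K :=
  eval₂Hom Polynomial.C (fun o : Option (Fin n) => o.elim Polynomial.X fun j => Polynomial.C (z j))

lemma ev_ph (ε : Fin n → Fin 2) (a z : Fin n → K) (g : MvPolynomial (Option (Fin n × Fin 2)) K) :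
    Ev ε a z g = eval (fun j => Polynomial.C (a j)) (MvPolynomial.map (Th z) (Ph ε g)) := by
  have h : Ev ε a z = ((eval (fun j => Polynomial.C (a j))).comp ((MvPolynomial.map (Th z)).comp
      (Ph (K := K) ε : _ →+* _))) := by
    apply MvPolynomial.ringHom_ext
    · intro r
      simp [Ph, Ev, Th, MvPolynomial.algebraMap_eq, IsScalarTower.algebraMap_apply K
        (MvPolynomial (Option (Fin n)) K) (MvPolynomial (Fin n) (MvPolynomial (Option (Fin n)) K))]
    · rintro (_ | p)
      · simp [Ph, cd, Ev, Th]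
      · have h1 := pt_map (Th z) ε (fun j => (X (some j) : MvPolynomial (Option (Fin n)) K)) p
        have h2 : ∀ j, Th z (X (some j) : MvPolynomial (Option (Fin n)) K) = Polynomial.C (z j) := by
          intro j
          simp [Th]
        simp only [h2] at h1
        rw [← pt_map Polynomial.C] at h1
        simp only [RingHom.comp_apply, RingHom.coe_coe, Ph, aeval_X, cd, Option.elim, map_mul, map_X,
          eval_X, map_C, eval_C, h1]
        simp [Ev]
  exact congrArg (fun φ => φ g) h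

lemma ev_some (ε : Fin n → Fin 2) (a z : Fin n → K) (A : MvPolynomial (Fin n × Fin 2) K) :
    Ev ε a z (rename some A) = Polynomial.C (eval (fun p => a p.1 * pt ε z p) A) := by
  have h : (Ev ε a z).comp ((rename some : MvPolynomial (Fin n × Fin 2) K →ₐ[K] _) : _ →+* _) =
      Polynomial.C.comp (eval (fun p : Fin n × Fin 2 => a p.1 * pt ε z p)) := by
    apply MvPolynomial.ringHom_ext
    · intro r
      simp [Ev]
    · intro p
      simp [Ev]
  exact congrArg (fun φ => φ A) h

lemma th_some (z : Fin n → K) (f : MvPolynomial (Fin n) K) :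
    Th z (rename some f) = Polynomial.C (eval z f) := by
  have h : (Th z).comp ((rename some : MvPolynomial (Fin n) K →ₐ[K] _) : _ →+* _) =
      Polynomial.C.comp (eval z) := by
    apply MvPolynomial.ringHom_ext
    · intro r
      simp [Th]
    · intro p
      simp [Th]
  exact congrArg (fun φ => φ f) h

/-- division with remainder -/
lemma div_rem {ι : Type} (G : MvPolynomial ι K) (g : MvPolynomial (Option ι) K) :
    ∃ (A B : MvPolynomial ι K) (Q : MvPolynomial (Option ι) K),
      g = rename some A + X none * rename some B + (X none ^ 2 - rename some G) * Q := by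
  induction g using MvPolynomial.induction_on with
  | C r =>
    refine ⟨C r, 0, 0, ?_⟩
    rw [rename_C, map_zero]
    ring
  | add g1 g2 h1 h2 =>
    obtain ⟨A1, B1, Q1, h1⟩ := h1
    obtain ⟨A2, B2, Q2, h2⟩ := h2
    refine ⟨A1 + A2, B1 + B2, Q1 + Q2, ?_⟩
    rw [map_add, map_add]
    linear_combination h1 + h2
  | mul_X g o h1 =>
    obtain ⟨A1, B1, Q1, h1⟩ := h1
    rcases o with _ | i
    · refine ⟨G * B1, A1, rename some B1 + Q1 * X none, ?_⟩
      rw [map_mul]
      linear_combination (X none) * h1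
    · refine ⟨A1 * X i, B1 * X i, Q1 * X (some i), ?_⟩
      rw [map_mul, map_mul, rename_X]
      linear_combination (X (some i)) * h1

lemma zero_of_dvd {c α β : K} (h : (Polynomial.X ^ 2 - Polynomial.C c) ∣
    (Polynomial.C β * Polynomial.X + Polynomial.C α)) : α = 0 ∧ β = 0 := by
  have h1 : (Polynomial.C β * Polynomial.X + Polynomial.C α) = 0 := by
    refine Polynomial.eq_zero_of_dvd_of_natDegree_lt h ?_
    rw [Polynomial.natDegree_X_pow_sub_C]
    exact lt_of_le_of_lt Polynomial.natDegree_linear_le (by norm_num)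
  constructor
  · have := congrArg (Polynomial.coeff · 0) h1
    simpa using this
  · have := congrArg (Polynomial.coeff · 1) h1
    simpa using this

lemma vanish (ε : Fin n → Fin 2) {A : MvPolynomial (Fin n × Fin 2) K}
    (h : ∀ X : Fin n × Fin 2 → K, (∀ j, X (j, ε j) ≠ 0) → eval X A = 0) : A = 0 := by
  have h1 : A * ∏ j, X (j, ε j) = 0 := by
    apply MvPolynomial.funext
    intro x
    rw [map_mul, map_prod, map_zero]
    simp only [eval_X]
    by_cases hb : ∀ j, x (j, ε j) ≠ 0
    · rw [h x hb, zero_mul]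
    · push Not at hb
      obtain ⟨j, hj⟩ := hb
      rw [Finset.prod_eq_zero (Finset.mem_univ j) hj, mul_zero]
  exact (mul_eq_zero.1 h1).resolve_right (Finset.prod_ne_zero_iff.2 fun j _ => X_ne_zero _)

/-- divisibility in a chart -/
lemma dvd_of (ε : Fin n → Fin 2) {G : MvPolynomial (Fin n × Fin 2) K} {f : MvPolynomial (Fin n) K}
    (hGf : ∀ z : Fin n → K, eval z f = eval (pt ε z) G)
    (hGs : ∀ (X : Fin n × Fin 2 → K) (a : Fin n → K), eval (fun p => a p.1 * X p) G =
      (∏ j, a j) ^ 4 * eval X G) (g : MvPolynomial (Option (Fin n × Fin 2)) K)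
    (h : ∀ k, (X none ^ 2 - rename some f) ∣ coeff k (Ph ε g)) :
    (X none ^ 2 - rename some G) ∣ g := by
  obtain ⟨A, B, Q, hg⟩ := div_rem G g
  have key : ∀ x : Fin n × Fin 2 → K, (∀ j, x (j, ε j) ≠ 0) → eval x A = 0 ∧ eval x B = 0 := by
    intro x hx
    have hP : (∏ j, x (j, ε j)) ≠ 0 := Finset.prod_ne_zero_iff.2 fun j _ => hx j
    have hxe : (fun p : Fin n × Fin 2 => x (p.1, ε p.1) * pt ε (zc ε x) p) = x :=
      funext fun p => pt_zc ε x hx p
    have h1 : (Polynomial.X ^ 2 - Polynomial.C (eval (zc ε x) f)) ∣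
        Ev ε (fun j => x (j, ε j)) (zc ε x) g := by
      rw [ev_ph, eval_map, eval₂_eq]
      refine Finset.dvd_sum fun k _ => ?_
      refine Dvd.dvd.mul_right ?_ _
      have h2 := map_dvd (Th (zc ε x)) (h k)
      rw [map_sub, map_pow, th_some] at h2
      have h3 : Th (zc ε x) (X none : MvPolynomial (Option (Fin n)) K) = Polynomial.X := by
        simp [Th]
      rw [h3] at h2
      exact h2
    have h4 : Ev ε (fun j => x (j, ε j)) (zc ε x) (X none) =
        Polynomial.C ((∏ j, x (j, ε j)) ^ 2) * Polynomial.X := by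
      simp [Ev]
    have h5 : eval x G = (∏ j, x (j, ε j)) ^ 4 * eval (zc ε x) f := by
      have := hGs (pt ε (zc ε x)) (fun j => x (j, ε j))
      rw [hxe, ← hGf] at this
      exact this
    have h6 : Ev ε (fun j => x (j, ε j)) (zc ε x) (X none ^ 2 - rename some G) =
        Polynomial.C ((∏ j, x (j, ε j)) ^ 4) * (Polynomial.X ^ 2 - Polynomial.C (eval (zc ε x) f)) := by
      rw [map_sub, map_pow, h4, ev_some, hxe, h5, map_mul Polynomial.C, map_pow Polynomial.C,
        map_pow Polynomial.C]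
      ring
    have h7 : Ev ε (fun j => x (j, ε j)) (zc ε x) g =
        (Polynomial.C ((∏ j, x (j, ε j)) ^ 2 * eval x B) * Polynomial.X + Polynomial.C (eval x A)) +
        (Polynomial.X ^ 2 - Polynomial.C (eval (zc ε x) f)) *
          (Polynomial.C ((∏ j, x (j, ε j)) ^ 4) * Ev ε (fun j => x (j, ε j)) (zc ε x) Q) := by
      rw [hg, map_add, map_add, map_mul, map_mul, h6, h4, ev_some, ev_some, hxe, map_mul Polynomial.C]
      ring
    rw [h7] at h1
    have h8 := (dvd_add_left (dvd_mul_right _ _)).1 h1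
    obtain ⟨h9, h10⟩ := zero_of_dvd h8
    exact ⟨h9, (mul_eq_zero.1 h10).resolve_left (pow_ne_zero 2 hP)⟩
  have hA : A = 0 := vanish ε fun x hx => (key x hx).1
  have hB : B = 0 := vanish ε fun x hx => (key x hx).2
  refine ⟨Q, ?_⟩
  conv_lhs => rw [hg]
  rw [hA, hB, map_zero]
  ring

end dvd

/-- **MZF.** -/
theorem mzf (h1 : S_TAN) (h2 : S_INV) (h3 : S_MZM) (h4 : S_CHF) : S_MZF := by
  intro K _ _ n F hF hS hFin
  refine ⟨⋃ ε : Fin n → Fin 2, pt ε '' {z : Fin n → K | ∀ i, TorN (ch F ε) z i}, ?_, ?_⟩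
  · refine Set.finite_iUnion fun ε => ?_
    obtain ⟨c1, c2, -⟩ := h4 K n F hF ε
    exact (h1 K n (ch F ε) c1 (c2 hS)).image _
  intro e he L _ _ σ hσ
  have hcl : CharZero L := charZero_of_injective_ringHom σ.injective
  have hσe : σ e ≠ 0 := (_root_.map_ne_zero σ).2 he
  -- scaling
  have sK : ∀ (X : Fin n × Fin 2 → K) (a : Fin n → K), eval (fun p => a p.1 * X p) F =
      (∏ j, a j) ^ 4 * eval X F := (h4 K n F hF (fun _ => 0)).2.2.2.2.2.1
  have sKe : ∀ (X : Fin n × Fin 2 → K) (a : Fin n → K), eval (fun p => a p.1 * X p) (C e * F) =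
      (∏ j, a j) ^ 4 * eval X (C e * F) := by
    intro X a
    rw [map_mul, map_mul, eval_C, eval_C, sK]
    ring
  have hFL : Hom4 (MvPolynomial.map σ F) := fun m hm => hF m (support_map_subset σ F hm)
  have sL : ∀ (x : Fin n × Fin 2 → L) (a : Fin n → L), eval₂ σ (fun p => a p.1 * x p) F =
      (∏ j, a j) ^ 4 * eval₂ σ x F := by
    intro x a
    have := (h4 L n (MvPolynomial.map σ F) hFL (fun _ => 0)).2.2.2.2.2.1 x a
    rwa [eval_map, eval_map] at this
  -- the charts
  have cK : ∀ (ε : Fin n → Fin 2) (z : Fin n → K), eval z (ch F ε) = eval (pt ε z) F :=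
    fun ε => (h4 K n F hF ε).2.2.1
  have cKe : ∀ (ε : Fin n → Fin 2) (z : Fin n → K), eval z (C e * ch F ε) = eval (pt ε z) (C e * F) := by
    intro ε z
    rw [map_mul, map_mul, eval_C, eval_C, cK]
  have cLe : ∀ (ε : Fin n → Fin 2) (z : Fin n → L), eval₂ σ z (C e * ch F ε) =
      σ e * eval₂ σ (pt ε z) F := by
    intro ε z
    rw [eval₂_mul, eval₂_C, eval₂_ch]
  have eLe : ∀ x : Fin n × Fin 2 → L, eval₂ σ x (C e * F) = σ e * eval₂ σ x F := by
    intro x
    rw [eval₂_mul, eval₂_C]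
  have MZ : ∀ ε : Fin n → Fin 2, _ := fun ε => h3 K n (C e * ch F ε)
    (h2 K n (ch F ε) (h4 K n F hF ε).1 e he).1
    ((h2 K n (ch F ε) (h4 K n F hF ε).1 e he).2.1 ((h4 K n F hF ε).2.1 hS))
    ((h2 K n (ch F ε) (h4 K n F hF ε).1 e he).2.2.1 ((h4 K n F hF ε).2.2.2.2.1 hFin)) L σ hσ
  -- from a chart to the projective variety
  have tr : ∀ (ε : Fin n → Fin 2) (Q : L → Prop), (∀ w a : L, a ≠ 0 → Q w → Q (w / a)) →
      {J | ∃ (w : L) (x : Fin n → L), Q w ∧ w ^ 2 = eval₂ σ x (C e * ch F ε) ∧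
        J = locN σ (C e * ch F ε) w x}.Finite →
      {J | ∃ (w : L) (x : Fin n × Fin 2 → L), Q w ∧ (∀ j, x (j, ε j) ≠ 0) ∧
        w ^ 2 = eval₂ σ x (C e * F) ∧ J = locF σ (C e * F) w x}.Finite := by
    intro ε Q hQ hfin
    refine (hfin.image (fun J => {g | ∀ k, coeff k (Ph ε g) ∈ J})).subset ?_
    rintro J ⟨w, x, hw, hx, hs, rfl⟩
    have hP : (∏ j, x (j, ε j)) ≠ 0 := Finset.prod_ne_zero_iff.2 fun j _ => hx j
    refine ⟨locN σ (C e * ch F ε) (w / (∏ j, x (j, ε j)) ^ 2) (zc ε x), ⟨_, _, ?_, ?_, rfl⟩,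
      Set.ext fun g => (locF_iff σ (cKe ε) sKe w x hx g).symm⟩
    · exact hQ _ _ (pow_ne_zero 2 hP) hw
    · have h5 := sL (pt ε (zc ε x)) (fun j => x (j, ε j))
      have hxe : (fun p : Fin n × Fin 2 => x (p.1, ε p.1) * pt ε (zc ε x) p) = x :=
        funext fun p => pt_zc ε x hx p
      rw [hxe] at h5
      rw [div_pow, hs, eLe, cLe, h5, ← pow_mul, mul_left_comm]
      exact mul_div_cancel_left₀ _ (pow_ne_zero _ hP)
  refine ⟨?_, ?_, ?_⟩
  · intro W X hW hs hT hJ g hg
    have hFX : eval X F ≠ 0 := by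
      intro h0
      rw [map_mul, h0, mul_zero] at hs
      exact hW (pow_eq_zero_iff two_ne_zero |>.1 hs)
    choose ε hε using pair_ne (fun x => eval x F) sK hFX
    have hP : (∏ j, X (j, ε j)) ≠ 0 := Finset.prod_ne_zero_iff.2 fun j _ => hε j
    have hXe : (fun p : Fin n × Fin 2 => X (p.1, ε p.1) * pt ε (zc ε X) p) = X :=
      funext fun p => pt_zc ε X hε p
    have hσX : ∀ j, (fun p => σ (X p)) (j, ε j) ≠ 0 := fun j => (_root_.map_ne_zero σ).2 (hε j)
    obtain ⟨c1, c2, -, c4, -, -, c7⟩ := h4 K n F hF ε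
    obtain ⟨-, -, -, i4⟩ := h2 K n (ch F ε) c1 e he
    refine dvd_of ε (cKe ε) sKe g fun k => ?_
    refine (MZ ε).1 (W / (∏ j, X (j, ε j)) ^ 2) (zc ε X) (div_ne_zero hW (pow_ne_zero 2 hP)) ?_ ?_ ?_ _ ?_
    · have h5 := sKe (pt ε (zc ε X)) (fun j => X (j, ε j))
      rw [hXe, ← cKe] at h5
      rw [div_pow, hs, h5, ← pow_mul]
      exact mul_div_cancel_left₀ _ (pow_ne_zero _ hP)
    · by_contra hno
      push Not at hno
      refine hT (pt ε (zc ε X)) ?_ (fun j => X (j, ε j)) hXe.symm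
      rw [Set.mem_iUnion]
      exact ⟨ε, zc ε X, fun i => ((i4 (zc ε X)).1 i).1 (hno i), rfl⟩
    · intro J hJ1 hJ2 hsp
      apply hJ J hJ1 hJ2
      have h5 := (c4 (zc ε X) J).1 (((i4 (zc ε X)).2 J).1 hsp)
      have h6 := (c7 (pt ε (zc ε X)) (fun j => X (j, ε j)) J hε).2 h5
      rwa [hXe] at h6
    · have h5 := (locF_iff σ (cKe ε) sKe (σ W) (fun p => σ (X p)) hσX g).1 hg k
      have e1 : σ W / (∏ j, (fun p => σ (X p)) (j, ε j)) ^ 2 = σ (W / (∏ j, X (j, ε j)) ^ 2) := by
        rw [map_div₀, map_pow, map_prod]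
      rw [e1, zc_map] at h5
      exact h5
  · refine (Set.finite_iUnion fun ε : Fin n → Fin 2 => tr ε (fun w => w ≠ 0)
      (fun w a ha hw => div_ne_zero hw ha) (MZ ε).2.1).subset ?_
    rintro J ⟨w, x, hw, hs, rfl⟩
    have hFx : eval₂ σ x F ≠ 0 := by
      intro h0
      rw [eLe, h0, mul_zero] at hs
      exact hw (pow_eq_zero_iff two_ne_zero |>.1 hs)
    choose ε hε using pair_ne (fun x => eval₂ σ x F) sL hFx
    rw [Set.mem_iUnion]
    exact ⟨ε, w, x, hw, hε, hs, rfl⟩
  · intro hB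
    have hz : ∀ (ε : Fin n → Fin 2) (z : Fin n → K), eval z (C e * ch F ε) = 0 ↔
        eval (pt ε z) F = 0 := by
      intro ε z
      rw [map_mul, eval_C, cK, mul_eq_zero, or_iff_right he]
    have hfin : ∀ ε : Fin n → Fin 2, {J : Set (MvPolynomial (Fin n) K) | ∃ x : Fin n → L,
        eval₂ σ x (C e * ch F ε) = 0 ∧
          J = {g | ∃ U ∈ nhds x, ∀ z : Fin n → K, eval z (C e * ch F ε) = 0 →
            (fun i => σ (z i)) ∈ U → eval z g = 0}}.Finite := by
      intro ε
      choose N H hH using homog (K := K) ε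
      refine (hB.image (fun J => {g | H g ∈ J})).subset ?_
      rintro J ⟨x, hx, rfl⟩
      refine ⟨locB σ F (pt ε x), ⟨pt ε x, fun j => ⟨ε j, by rw [pt_self]; exact one_ne_zero⟩, ?_, rfl⟩, ?_⟩
      · rw [cLe] at hx
        exact (mul_eq_zero.1 hx).resolve_left hσe
      · ext g
        exact (locB_iff σ (hz ε) sK x g (hH g)).symm
    refine (Set.finite_iUnion fun ε : Fin n → Fin 2 => tr ε (fun _ => True)
      (fun w a ha hw => trivial) (((MZ ε).2.2 (hfin ε)).subset ?_)).subset ?_
    · rintro J ⟨w, x, -, hs, hJ⟩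
      exact ⟨w, x, hs, hJ⟩
    · rintro J ⟨w, x, hx, hs, rfl⟩
      choose ε hε using hx
      rw [Set.mem_iUnion]
      exact ⟨ε, w, x, trivial, hε, hs, rfl⟩

end Pool.Agent.Q68.TT.Mzf
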