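import Pool.Agent.Q35.TT.Stm3

/-!
# Project TT (helper35), part 2, job EXT: extension of a nonarchimedean absolute value to an algebraically closed field
-/

set_option autoImplicit false

namespace Pool.Agent.Q68.TT.Ext

open Pool.Agent.Q35.TT

theorem ext : S_EXT := by
  intro K _ v hv
  classical
  by_cases htriv : ∀ x : K, x ≠ 0 → v x = 1
  · refine ⟨AlgebraicClosure K, inferInstance, inferInstance, AbsoluteValue.trivial,
      algebraMap K (AlgebraicClosure K), ?_, ?_⟩
    · intro x y
      by_cases h : x + y = 0
      · rw [h, map_zero]
        exact le_max_of_le_left (apply_nonneg _ _)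
      · by_cases hx : x = 0
        · have hy : y ≠ 0 := by
            rintro rfl
            exact h (by rw [hx, add_zero])
          rw [AbsoluteValue.trivial_apply h, AbsoluteValue.trivial_apply hy]
          exact le_max_right _ _
        · rw [AbsoluteValue.trivial_apply h, AbsoluteValue.trivial_apply hx]
          exact le_max_left _ _
    · intro x
      by_cases hx : x = 0
      · rw [hx, map_zero, map_zero, map_zero]
      · rw [htriv x hx, AbsoluteValue.trivial_apply]
        exact (map_ne_zero _).2 hx
  · push Not at htriv
    obtain ⟨x, hx0, hx1⟩ := htriv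
    obtain ⟨y, hy⟩ : ∃ y : K, 1 < v y := by
      rcases lt_or_gt_of_ne hx1 with h | h
      · refine ⟨x⁻¹, ?_⟩
        rw [map_inv₀]
        exact (one_lt_inv₀ (v.pos hx0)).2 h
      · exact ⟨x, h⟩
    obtain ⟨φ, hφ⟩ : ∃ φ : K →+* v.Completion, ∀ z, ‖φ z‖ = v z :=
      ⟨(UniformSpace.Completion.coeRingHom).comp (WithAbs.equiv v).symm.toRingHom, fun z => by
        change ‖((WithAbs.toAbs v z : WithAbs v) : v.Completion)‖ = v z
        rw [UniformSpace.Completion.norm_coe]
        rfl⟩
    let _ : NontriviallyNormedField v.Completion :=
      { (inferInstance : NormedField v.Completion) with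
        non_trivial := ⟨φ y, by
          have := hφ y
          rw [← this] at hy
          exact hy⟩ }
    have hnat : ∀ n : ℕ, ‖((n : ℕ) : v.Completion)‖ ≤ 1 := by
      intro n
      have h1 : ((n : ℕ) : v.Completion) = φ (n : K) := (map_natCast φ n).symm
      rw [h1, hφ]
      induction n with
      | zero => simp
      | succ n ih =>
        push_cast
        refine (hv _ _).trans (max_le ?_ (by rw [map_one]))
        apply ih
        exact (map_natCast φ n).symm
    have hu : IsUltrametricDist v.Completion := IsUltrametricDist.isUltrametricDist_of_forall_norm_natCast_le_one hnat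
    refine ⟨AlgebraicClosure v.Completion, inferInstance, inferInstance,
      { toFun := spectralNorm v.Completion (AlgebraicClosure v.Completion)
        map_mul' := fun a b => spectralAlgNorm_mul a b
        nonneg' := fun a => spectralNorm_nonneg a
        eq_zero' := fun a => ⟨fun h => eq_zero_of_map_spectralNorm_eq_zero h (Algebra.IsAlgebraic.isAlgebraic a),
          fun h => by rw [h]; exact spectralNorm_zero⟩
        add_le' := fun a b => IsNonarchimedean.add_le spectralNorm_nonneg isNonarchimedean_spectralNorm },
      (algebraMap v.Completion (AlgebraicClosure v.Completion)).comp φ, ?_, ?_⟩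
    · exact isNonarchimedean_spectralNorm
    · intro z
      change spectralNorm v.Completion (AlgebraicClosure v.Completion) (algebraMap _ _ (φ z)) = v z
      rw [spectralNorm_extends, hφ]

end Pool.Agent.Q68.TT.Ext
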