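import Pool.Agent.Q68.TT.SalB
import Pool.Agent.Q35.TT.Stm6
import Pool.Agent.Q35.TT.Stm7

/-!
# Project TT (helper35), jobs SAL, SAW, SAC: the real closures are semialgebraic
-/

set_option autoImplicit false
set_option linter.unusedSectionVars false

open Pool.Agent.Y720.MZ MvPolynomial

namespace Pool.Agent.Q68.TT.Sal

open Pool.Agent.Q35.TT Pool.Agent.Y718.X Pool.Agent.TH729.SQ Pool.Agent.H581R2

/-- the closure is semialgebraic -/
def GS {n : Type} (A : Set (n → ℚ)) : Prop := SA (closure (rl A))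

lemma rl_union {n : Type} (A B : Set (n → ℚ)) : rl (A ∪ B) = rl A ∪ rl B := by
  ext x
  constructor
  · rintro ⟨r, hr | hr, rfl⟩
    · exact Or.inl ⟨r, hr, rfl⟩
    · exact Or.inr ⟨r, hr, rfl⟩
  · rintro (⟨r, hr, rfl⟩ | ⟨r, hr, rfl⟩)
    · exact ⟨r, Or.inl hr, rfl⟩
    · exact ⟨r, Or.inr hr, rfl⟩

lemma GS.union {n : Type} {A B : Set (n → ℚ)} (hA : GS A) (hB : GS B) : GS (A ∪ B) := by
  rw [GS, rl_union, closure_union]
  exact SA.union hA hB

lemma GS.fin {n : Type} [Finite n] {A : Set (n → ℚ)} (hA : A.Finite) : GS A := by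
  have h1 : rl A = {x : n → ℝ | ∃ r ∈ A, ∀ i, x i = (r i : ℝ)} := by
    ext x
    exact exists_congr fun r => and_congr_right fun _ => funext_iff
  have h2 : (rl A).Finite := by
    refine (hA.image fun (r : n → ℚ) i => (r i : ℝ)).subset ?_
    rintro x ⟨r, hr, rfl⟩
    exact ⟨r, hr, rfl⟩
  rw [GS, h2.isClosed.closure_eq, h1]
  exact SA.finite_rat hA

lemma GS.biU {n α : Type} [Finite n] {S : Set α} (hS : S.Finite) {A : α → Set (n → ℚ)} :
    (∀ a ∈ S, GS (A a)) → GS (⋃ a ∈ S, A a) := by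
  refine Set.Finite.induction_on S hS ?_ ?_
  · intro _
    rw [Set.biUnion_empty]
    exact GS.fin Set.finite_empty
  · intro a S _ _ ih h
    rw [Set.biUnion_insert]
    exact (h a (Set.mem_insert _ _)).union (ih fun b hb => h b (Set.mem_insert_of_mem _ hb))

/-- coordinate embeddings -/
lemma GS.emb {m n : Type} [Finite m] [Finite n] {D : Set (m → ℚ)} (hD : GS D) (e : n → Option m) (a : ℚ)
    (b : m → n) (hb : ∀ i, e (b i) = some i) :
    GS ((fun (v : m → ℚ) k => (e k).elim a v) '' D) := by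
  obtain ⟨φ, hφ⟩ : ∃ φ : (m → ℝ) → n → ℝ, φ = fun v k => (e k).elim (a : ℝ) v := ⟨_, rfl⟩
  have hφc : Continuous φ := by
    rw [hφ]
    refine continuous_pi fun k => ?_
    cases e k with
    | none => exact continuous_const
    | some i => exact continuous_apply i
  have hψc : Continuous (fun (y : n → ℝ) (i : m) => y (b i)) := by fun_prop
  have hinv : Function.LeftInverse (fun (y : n → ℝ) (i : m) => y (b i)) φ := by
    intro v
    funext i
    change φ v (b i) = v i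
    rw [hφ]
    change (e (b i)).elim (a : ℝ) v = v i
    rw [hb i]
    rfl
  have hcl := hinv.isClosedEmbedding hψc hφc
  have hcast : ∀ v : m → ℚ, φ (fun i => (v i : ℝ)) = fun k => (((e k).elim a v : ℚ) : ℝ) := by
    intro v
    rw [hφ]
    funext k
    cases h : e k with
    | none => simp [h]
    | some i => simp [h]
  have h1 : rl ((fun (v : m → ℚ) k => (e k).elim a v) '' D) = φ '' rl D := by
    ext x
    constructor
    · rintro ⟨_, ⟨v, hv, rfl⟩, rfl⟩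
      exact ⟨fun i => (v i : ℝ), ⟨v, hv, rfl⟩, hcast v⟩
    · rintro ⟨_, ⟨v, hv, rfl⟩, rfl⟩
      exact ⟨_, ⟨v, hv, rfl⟩, hcast v⟩
  rw [GS, h1, hcl.closure_image_eq]
  have h2 : φ '' closure (rl D) = {y : n → ℝ | ∃ x ∈ closure (rl D),
      (MvPolynomial.aeval x (1 : MvPolynomial m ℚ) : ℝ) ≠ 0 ∧
      ∀ k, y k = MvPolynomial.aeval x ((e k).elim (C a) X : MvPolynomial m ℚ) /
        MvPolynomial.aeval x (1 : MvPolynomial m ℚ)} := by
    have h3 : ∀ (x : m → ℝ) k, φ x k = MvPolynomial.aeval x ((e k).elim (C a) X : MvPolynomial m ℚ) /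
        MvPolynomial.aeval x (1 : MvPolynomial m ℚ) := by
      intro x k
      rw [map_one, div_one, hφ]
      cases h : e k with
      | none => simp [h]
      | some i => simp [h]
    ext y
    constructor
    · rintro ⟨x, hx, rfl⟩
      exact ⟨x, hx, by rw [map_one]; exact one_ne_zero, h3 x⟩
    · rintro ⟨x, hx, -, hy⟩
      exact ⟨x, hx, funext fun k => (h3 x k).trans (hy k).symm⟩
  rw [h2]
  exact SA.image_rat hD _ _

lemma fin_root (q : ℚ) : {w : ℚ | w ^ 2 = q}.Finite := by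
  rcases Set.eq_empty_or_nonempty {w : ℚ | w ^ 2 = q} with h | ⟨w0, hw0⟩
  · rw [h]
    exact Set.finite_empty
  · refine (Set.toFinite {w0, -w0}).subset ?_
    intro w hw
    have h1 : w ^ 2 = w0 ^ 2 := Eq.trans hw (Eq.symm hw0)
    rcases sq_eq_sq_iff_eq_or_eq_neg.1 h1 with rfl | rfl
    · exact Or.inl rfl
    · exact Or.inr rfl

lemma fin_up {n : ℕ} {B : Set (Fin n → ℚ)} (hB : B.Finite) (g : (Fin n → ℚ) → ℚ) :
    {u : Fin (n + 1) → ℚ | u 0 ^ 2 = g (fun k => u k.succ) ∧ (fun k => u k.succ) ∈ B}.Finite := by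
  refine (hB.biUnion fun b _ =>
    (fin_root (g b)).image (fun w => (Fin.cons w b : Fin (n + 1) → ℚ))).subset ?_
  rintro u ⟨h1, h2⟩
  rw [Set.mem_iUnion₂]
  exact ⟨_, h2, u 0, h1, Fin.cons_self_tail u⟩

/-- the rational points of a quartic curve -/
theorem GS.crv (Q : Fin 5 → ℚ) (hd : dc (Q 0) (Q 1) (Q 2) (Q 3) (Q 4) ≠ 0) :
    GS {v : Fin 2 → ℚ | v 0 ≠ 0 ∧ v 0 ^ 2 = bq Q ![1, v 1]} := by
  obtain ⟨f, hf⟩ : ∃ f : MvPolynomial (Fin 1) ℚ, f = ∑ i : Fin 5, C (Q i) * X 0 ^ (i : ℕ) := ⟨_, rfl⟩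
  have he : ∀ z, eval z f = bq Q ![1, z 0] := by
    intro z
    have h1 : eval z f = ∑ i : Fin 5, Q i * z 0 ^ (i : ℕ) := by
      rw [hf, map_sum]
      refine Finset.sum_congr rfl fun i _ => ?_
      rw [map_mul, map_pow, eval_C, eval_X]
    have h3 : ((3 : Fin 5) : ℕ) = 3 := rfl
    have h4 : ((4 : Fin 5) : ℕ) = 4 := rfl
    have h0 : ((0 : Fin 5) : ℕ) = 0 := rfl
    have h5 : ((1 : Fin 5) : ℕ) = 1 := rfl
    have h2 : ((2 : Fin 5) : ℕ) = 2 := rfl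
    rw [h1, bq_one]
    simp only [Fin.sum_univ_five, h0, h5, h2, h3, h4]
    ring
  have hlk : ∀ z, lk f z (Pi.single 0 1) = qpol (bq Q ![1, z 0]) (tay Q (z 0) 0) (tay Q (z 0) 1)
      (tay Q (z 0) 2) (tay Q (z 0) 3) := by
    intro z
    refine Polynomial.funext fun t => ?_
    rw [lk_eval, eval_qpol, he, ← bq_add]
    have h0 : (z + t • (Pi.single 0 1 : Fin 1 → ℚ)) 0 = z 0 + t := by simp
    rw [h0]
  have hN : ∀ v : Fin 2 → ℚ, v 0 ≠ 0 → v 0 ^ 2 = bq Q ![1, v 1] →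
      (¬ ∃ (w : ℚ) (n : ℕ), n ≠ 0 ∧ Tor Q (v 1) w n) → NX f (fun k => v k.succ) := by
    intro v h0 h1 h2
    refine ⟨fun _ => Pi.single 0 1, ?_, fun k => ⟨?_, Or.inr ⟨0, fun _ _ => rfl, ?_⟩⟩⟩
    · have h3 := (Pi.basisFun ℚ (Fin 1)).linearIndependent
      have h4 : (fun _ => Pi.single 0 1 : Fin 1 → Fin 1 → ℚ) = ⇑(Pi.basisFun ℚ (Fin 1)) := by
        funext i
        rw [Pi.basisFun_apply, Subsingleton.elim i 0]
      rw [h4]
      exact h3
    · intro z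
      rw [hlk]
      exact qpol_deg
    · have h3 : (fun k : Fin 1 => v k.succ) + ∑ j : Fin 1, (0 : Fin 1 → ℚ) j •
          (Pi.single 0 1 : Fin 1 → ℚ) = fun k : Fin 1 => v k.succ := by simp
      rw [h3, hlk]
      exact inf_of (a := Q) (s := v 1) h0 h1 hd fun n hn h => h2 ⟨v 0, n, hn, h⟩
  have hT := tor_finite Q hd
  have hTf : {z : Fin 1 → ℚ | z 0 ∈ {t : ℚ | ∃ (w : ℚ) (n : ℕ), n ≠ 0 ∧ Tor Q t w n}}.Finite := by
    refine (hT.image fun (t : ℚ) (_ : Fin 1) => t).subset ?_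
    intro z hz
    refine ⟨z 0, hz, ?_⟩
    funext i
    rw [Subsingleton.elim i 0]
  have hu := fin_up hTf (fun z => bq Q ![1, z 0])
  have hset : {v : Fin 2 → ℚ | v 0 ≠ 0 ∧ v 0 ^ 2 = bq Q ![1, v 1]} = dcN f ∪
      ({v : Fin 2 → ℚ | v 0 ≠ 0} ∩ {u : Fin (1 + 1) → ℚ | u 0 ^ 2 =
        (fun z : Fin 1 → ℚ => bq Q ![1, z 0]) (fun k => u k.succ) ∧ (fun k => u k.succ) ∈
          {z : Fin 1 → ℚ | z 0 ∈ {t : ℚ | ∃ (w : ℚ) (n : ℕ), n ≠ 0 ∧ Tor Q t w n}}}) := by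
    ext v
    constructor
    · rintro ⟨h0, h1⟩
      by_cases h2 : ∃ (w : ℚ) (n : ℕ), n ≠ 0 ∧ Tor Q (v 1) w n
      · exact Or.inr ⟨h0, h1, h2⟩
      · refine Or.inl ⟨h0, ?_, hN v h0 h1 h2⟩
        rw [he]
        exact h1
    · rintro (⟨h0, h1, -⟩ | ⟨h0, h1, -⟩)
      · rw [he] at h1
        exact ⟨h0, h1⟩
      · exact ⟨h0, h1⟩
  rw [hset]
  exact GS.union (dcN_SA f) (GS.fin (hu.subset Set.inter_subset_right))

/-- the rational points of the surface, off the branch curve -/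
def PP (c : Fin 5 → Fin 5 → ℚ) : Set (Fin 3 → ℚ) :=
  {u | u 0 ≠ 0 ∧ u 0 ^ 2 = F4 c ![1, u 1] ![1, u 2]}

lemma smooth_swap {K : Type} [Field K] {c : Fin 5 → Fin 5 → K} (h : Smooth c) :
    Smooth (fun i j => c j i) := fun x y hx hy h1 h2 => h y x hy hx h2 h1

/-- the degenerate points -/
theorem main_dec (h1 : S_THA) (h2 : S_THB) (h3 : S_SNG) (h4 : S_SPE) {c : Fin 5 → Fin 5 → ℚ}
    (hc : Smooth c) : ∃ (F1 F2 : Set ℚ) (Z : Set (ℚ × ℚ)), F1.Finite ∧ F2.Finite ∧ Z.Finite ∧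
      (∀ s ∈ F1, dc (cy c ![1, s] 0) (cy c ![1, s] 1) (cy c ![1, s] 2) (cy c ![1, s] 3)
        (cy c ![1, s] 4) ≠ 0) ∧
      (∀ t ∈ F2, dc (cx c ![1, t] 0) (cx c ![1, t] 1) (cx c ![1, t] 2) (cx c ![1, t] 3)
        (cx c ![1, t] 4) ≠ 0) ∧
      ∀ s t w : ℚ, w ≠ 0 → w ^ 2 = F4 c ![1, s] ![1, t] →
        s ∈ F1 ∨ t ∈ F2 ∨ (s, t) ∈ Z ∨ NX (fc c) ![s, t] := by
  obtain ⟨d1, hd1⟩ : ∃ d1 : ℚ → ℚ, d1 = fun s => dc (cy c ![1, s] 0) (cy c ![1, s] 1)
    (cy c ![1, s] 2) (cy c ![1, s] 3) (cy c ![1, s] 4) := ⟨_, rfl⟩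
  obtain ⟨d2, hd2⟩ : ∃ d2 : ℚ → ℚ, d2 = fun t => dc (cx c ![1, t] 0) (cx c ![1, t] 1)
    (cx c ![1, t] 2) (cx c ![1, t] 3) (cx c ![1, t] 4) := ⟨_, rfl⟩
  have hc' := smooth_swap hc
  obtain ⟨p1, p2⟩ := h4 ℚ c hc
  obtain ⟨q1, q2⟩ := h4 ℚ (fun i j => c j i) hc'
  have e1 : ∀ s, dc (cy c ![1, s] 0) (cy c ![1, s] 1)
    (cy c ![1, s] 2) (cy c ![1, s] 3) (cy c ![1, s] 4) = d1 s := fun s => by rw [hd1]
  have e2 : ∀ t, dc (cx c ![1, t] 0) (cx c ![1, t] 1)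
    (cx c ![1, t] 2) (cx c ![1, t] 3) (cx c ![1, t] 4) = d2 t := fun t => by rw [hd2]
  have e2' : ∀ t, dc (cy (fun i j => c j i) ![1, t] 0) (cy (fun i j => c j i) ![1, t] 1)
    (cy (fun i j => c j i) ![1, t] 2) (cy (fun i j => c j i) ![1, t] 3)
    (cy (fun i j => c j i) ![1, t] 4) = d2 t := e2
  have P2 : {s : ℚ | d1 s = 0 ∨ ¬ ND (cy c ![1, s]) (gd c s)}.Finite := by
    refine p2.subset ?_
    rintro s (hs | hs)
    · exact Or.inl ((e1 s).trans hs)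
    · exact Or.inr hs
  have Q2 : {t : ℚ | d2 t = 0 ∨ ¬ ND (cy (fun i j => c j i) ![1, t]) (gd (fun i j => c j i) t)}.Finite := by
    refine q2.subset ?_
    rintro t (ht | ht)
    · exact Or.inl ((e2' t).trans ht)
    · exact Or.inr ht
  have R1 : ∀ s, d1 s = 0 → {t : ℚ | TorX c s t}.Finite := fun s hs =>
    h2 ℚ c s (h3 ℚ c hc s (p1 s) ((e1 s).trans hs))
  have R2 : ∀ t, d2 t = 0 → {s : ℚ | TorY c s t}.Finite := fun t ht =>
    h2 ℚ (fun i j => c j i) t (h3 ℚ (fun i j => c j i) hc' t (q1 t) ((e2' t).trans ht))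
  have D1 : {s : ℚ | d1 s = 0}.Finite := P2.subset fun s hs => Or.inl hs
  have D2 : {t : ℚ | d2 t = 0}.Finite := Q2.subset fun t ht => Or.inl ht
  refine ⟨{s | d1 s ≠ 0 ∧ ¬ ND (cy c ![1, s]) (gd c s)},
    {t | d2 t ≠ 0 ∧ ¬ ND (cy (fun i j => c j i) ![1, t]) (gd (fun i j => c j i) t)},
    {z : ℚ × ℚ | TorX c z.1 z.2 ∧ TorY c z.1 z.2} ∪ ({s : ℚ | d1 s = 0} ×ˢ {t : ℚ | d2 t = 0} ∪
      ((⋃ s ∈ {s : ℚ | d1 s = 0}, (fun t => (s, t)) '' {t : ℚ | TorX c s t}) ∪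
      (⋃ t ∈ {t : ℚ | d2 t = 0}, (fun s => (s, t)) '' {s : ℚ | TorY c s t}))),
    P2.subset fun s hs => Or.inr hs.2, Q2.subset fun t ht => Or.inr ht.2, ?_, ?_, ?_, ?_⟩
  · refine (h1 ℚ c hc).union ((D1.prod D2).union (Set.Finite.union ?_ ?_))
    · exact D1.biUnion fun s hs => (R1 s hs).image _
    · exact D2.biUnion fun t ht => (R2 t ht).image _
  · intro s hs
    rw [e1]
    exact hs.1
  · intro t ht
    rw [e2]
    exact ht.1
  · intro s t w hw hw2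
    by_cases a1 : d1 s = 0
    · by_cases a2 : d2 t = 0
      · exact Or.inr (Or.inr (Or.inl (Or.inr (Or.inl ⟨a1, a2⟩))))
      · by_cases a3 : ND (cy (fun i j => c j i) ![1, t]) (gd (fun i j => c j i) t)
        · by_cases a4 : TorX c s t
          · refine Or.inr (Or.inr (Or.inl (Or.inr (Or.inr (Or.inl ?_)))))
            rw [Set.mem_iUnion₂]
            exact ⟨s, a1, t, a4, rfl⟩
          · refine Or.inr (Or.inr (Or.inr (caseB h2 ?_ a3 ?_ hw hw2 a4)))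
            · rw [e2]
              exact a2
            · simp only [e1]
              exact D1
        · exact Or.inr (Or.inl ⟨a2, a3⟩)
    · by_cases b1 : ND (cy c ![1, s]) (gd c s)
      · by_cases b2 : TorY c s t
        · by_cases a2 : d2 t = 0
          · refine Or.inr (Or.inr (Or.inl (Or.inr (Or.inr (Or.inr ?_)))))
            rw [Set.mem_iUnion₂]
            exact ⟨t, a2, s, b2, rfl⟩
          · by_cases a3 : ND (cy (fun i j => c j i) ![1, t]) (gd (fun i j => c j i) t)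
            · by_cases a4 : TorX c s t
              · exact Or.inr (Or.inr (Or.inl (Or.inl ⟨a4, b2⟩)))
              · refine Or.inr (Or.inr (Or.inr (caseB h2 ?_ a3 ?_ hw hw2 a4)))
                · rw [e2]
                  exact a2
                · simp only [e1]
                  exact D1
            · exact Or.inr (Or.inl ⟨a2, a3⟩)
        · refine Or.inr (Or.inr (Or.inr (caseA h2 ?_ b1 ?_ hw hw2 b2)))
          · rw [e1]
            exact a1
          · simp only [e2]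
            exact D2
      · exact Or.inl ⟨a1, b1⟩

/-- the closure of the set of the rational points off the branch curve -/
theorem GS_PP (h1 : S_THA) (h2 : S_THB) (h3 : S_SNG) (h4 : S_SPE) {c : Fin 5 → Fin 5 → ℚ}
    (hc : Smooth c) : GS (PP c) := by
  obtain ⟨F1, F2, Z, f1, f2, fZ, n1, n2, hdec⟩ := main_dec h1 h2 h3 h4 hc
  have hset : PP c = dcN (fc c) ∪ ((PP c ∩ {u | (u 1, u 2) ∈ Z}) ∪
      ((⋃ s ∈ F1, PP c ∩ {u | u 1 = s}) ∪ ⋃ t ∈ F2, PP c ∩ {u | u 2 = t})) := by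
    ext u
    constructor
    · intro hu
      rcases hdec (u 1) (u 2) (u 0) hu.1 hu.2 with h | h | h | h
      · refine Or.inr (Or.inr (Or.inl ?_))
        rw [Set.mem_iUnion₂]
        exact ⟨_, h, hu, rfl⟩
      · refine Or.inr (Or.inr (Or.inr ?_))
        rw [Set.mem_iUnion₂]
        exact ⟨_, h, hu, rfl⟩
      · exact Or.inr (Or.inl ⟨hu, h⟩)
      · refine Or.inl ⟨hu.1, ?_, ?_⟩
        · rw [eval_fc]
          exact hu.2
        · have e : (fun k : Fin 2 => u k.succ) = ![u 1, u 2] := by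
            funext k
            fin_cases k <;> rfl
          rw [e]
          exact h
    · rintro (⟨h0, h5, -⟩ | ⟨hu, -⟩ | h | h)
      · rw [eval_fc] at h5
        exact ⟨h0, h5⟩
      · exact hu
      · rw [Set.mem_iUnion₂] at h
        obtain ⟨_, _, hu, _⟩ := h
        exact hu
      · rw [Set.mem_iUnion₂] at h
        obtain ⟨_, _, hu, _⟩ := h
        exact hu
  rw [hset]
  refine GS.union (dcN_SA _) (GS.union (GS.fin ?_) (GS.union (GS.biU f1 fun s hs => ?_)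
    (GS.biU f2 fun t ht => ?_)))
  · have hZ : {z : Fin 2 → ℚ | (z 0, z 1) ∈ Z}.Finite := by
      refine (fZ.image fun z : ℚ × ℚ => ![z.1, z.2]).subset ?_
      intro z hz
      refine ⟨_, hz, ?_⟩
      funext k
      fin_cases k <;> rfl
    refine (fin_up hZ fun z => F4 c ![1, z 0] ![1, z 1]).subset ?_
    rintro u ⟨hu, hu2⟩
    exact ⟨hu.2, hu2⟩
  · have e : PP c ∩ {u | u 1 = s} = (fun (v : Fin 2 → ℚ) k =>
        ((![some 0, none, some 1] : Fin 3 → Option (Fin 2)) k).elim s v) ''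
          {v : Fin 2 → ℚ | v 0 ≠ 0 ∧ v 0 ^ 2 = bq (cy c ![1, s]) ![1, v 1]} := by
      ext u
      constructor
      · rintro ⟨⟨h5, h6⟩, h7⟩
        refine ⟨![u 0, u 2], ⟨h5, ?_⟩, ?_⟩
        · change u 0 ^ 2 = bq (cy c ![1, s]) ![1, u 2]
          have h8 : u 1 = s := h7
          rw [F4_cy, ← h8]
          exact h6
        · funext k
          fin_cases k
          · rfl
          · exact Eq.symm h7
          · rfl
      · rintro ⟨v, ⟨h5, h6⟩, rfl⟩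
        rw [F4_cy] at h6
        exact ⟨⟨h5, h6⟩, rfl⟩
    rw [e]
    refine GS.emb (GS.crv _ (n1 s hs)) _ _ ![0, 2] ?_
    intro i
    fin_cases i <;> rfl
  · have e : PP c ∩ {u | u 2 = t} = (fun (v : Fin 2 → ℚ) k =>
        ((![some 0, some 1, none] : Fin 3 → Option (Fin 2)) k).elim t v) ''
          {v : Fin 2 → ℚ | v 0 ≠ 0 ∧ v 0 ^ 2 = bq (cx c ![1, t]) ![1, v 1]} := by
      ext u
      constructor
      · rintro ⟨⟨h5, h6⟩, h7⟩
        refine ⟨![u 0, u 1], ⟨h5, ?_⟩, ?_⟩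
        · change u 0 ^ 2 = F4 c ![1, u 1] ![1, t]
          have h8 : u 2 = t := h7
          rw [← h8]
          exact h6
        · funext k
          fin_cases k
          · rfl
          · rfl
          · exact Eq.symm h7
      · rintro ⟨v, ⟨h5, h6⟩, rfl⟩
        exact ⟨⟨h5, h6⟩, rfl⟩
    rw [e]
    refine GS.emb (GS.crv _ (n2 t ht)) _ _ ![0, 1] ?_
    intro i
    fin_cases i <;> rfl

/-- all rational points, if the branch curve has only finitely many -/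
theorem GS_QQ (h1 : S_THA) (h2 : S_THB) (h3 : S_SNG) (h4 : S_SPE) {c : Fin 5 → Fin 5 → ℚ}
    (hc : Smooth c) (hf : {z : ℚ × ℚ | F4 c ![1, z.1] ![1, z.2] = 0}.Finite) :
    GS {u : Fin 3 → ℚ | u 0 ^ 2 = F4 c ![1, u 1] ![1, u 2]} := by
  have hZ : {z : Fin 2 → ℚ | F4 c ![1, z 0] ![1, z 1] = 0}.Finite := by
    refine (hf.image fun z : ℚ × ℚ => ![z.1, z.2]).subset ?_
    intro z hz
    refine ⟨(z 0, z 1), hz, ?_⟩
    funext k
    fin_cases k <;> rfl
  have hset : {u : Fin 3 → ℚ | u 0 ^ 2 = F4 c ![1, u 1] ![1, u 2]} = PP c ∪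
      {u : Fin 3 → ℚ | u 0 ^ 2 = F4 c ![1, u 1] ![1, u 2] ∧ F4 c ![1, u 1] ![1, u 2] = 0} := by
    ext u
    constructor
    · intro hu
      by_cases h0 : u 0 = 0
      · refine Or.inr ⟨hu, ?_⟩
        have hu' : u 0 ^ 2 = F4 c ![1, u 1] ![1, u 2] := hu
        rw [← hu', h0]
        ring
      · exact Or.inl ⟨h0, hu⟩
    · rintro (⟨-, hu⟩ | ⟨hu, -⟩)
      · exact hu
      · exact hu
  rw [hset]
  refine GS.union (GS_PP h1 h2 h3 h4 hc) (GS.fin ?_)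
  exact fin_up hZ fun z => F4 c ![1, z 0] ![1, z 1]

/-- **SAL.** -/
theorem sal (h1 : S_THA) (h2 : S_THB) (h3 : S_SNG) (h4 : S_SPE) : S_SAL := by
  intro c hc
  constructor
  · have e : {x : Fin 3 → ℝ | ∃ u : Fin 3 → ℚ, u 0 ≠ 0 ∧
      u 0 ^ 2 = F4 c ![1, u 1] ![1, u 2] ∧ x = fun i => (u i : ℝ)} = rl (PP c) := by
      ext x
      exact exists_congr fun u => (and_assoc (a := u 0 ≠ 0)
        (b := u 0 ^ 2 = F4 c ![1, u 1] ![1, u 2]) (c := x = fun i => (u i : ℝ))).symm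
    rw [e]
    exact SA.frozen (GS_PP h1 h2 h3 h4 hc)
  · intro hf
    exact SA.frozen (GS_QQ h1 h2 h3 h4 hc hf)

/-- **SAW.** -/
theorem saw (h1 : S_THA) (h2 : S_THB) (h3 : S_SNG) (h4 : S_SPE) : S_SAW := by
  intro J κ _ _ c hc m p q
  constructor
  · exact SA.frozen (values_main (fun j => PP (c j)) (fun j => GS_PP h1 h2 h3 h4 (hc j)) p q)
  · intro hf
    exact SA.frozen (values_main (fun j => {u : Fin 3 → ℚ | u 0 ^ 2 = F4 (c j) ![1, u 1] ![1, u 2]})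
      (fun j => GS_QQ h1 h2 h3 h4 (hc j) (hf j)) p q)

lemma aeval_fc (c : Fin 5 → Fin 5 → ℚ) (z : Fin 2 → ℝ) :
    (aeval z (fc c) : ℝ) = F4 (fun i j => (c i j : ℝ)) ![1, z 0] ![1, z 1] := by
  have h1 : (aeval z (fc c) : ℝ) =
      ∑ i : Fin 5, ∑ j : Fin 5, (c i j : ℝ) * z 0 ^ (i : ℕ) * z 1 ^ (j : ℕ) := by
    rw [fc, map_sum]
    refine Finset.sum_congr rfl fun i _ => ?_
    rw [map_sum]
    refine Finset.sum_congr rfl fun j _ => ?_
    rw [map_mul, map_mul, map_pow, map_pow, aeval_C, aeval_X, aeval_X]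
    rfl
  have h3 : ((3 : Fin 5) : ℕ) = 3 := rfl
  have h4 : ((4 : Fin 5) : ℕ) = 4 := rfl
  have h0 : ((0 : Fin 5) : ℕ) = 0 := rfl
  have h5 : ((1 : Fin 5) : ℕ) = 1 := rfl
  have h2 : ((2 : Fin 5) : ℕ) = 2 := rfl
  rw [h1]
  simp only [Fin.sum_univ_five, F4, bq, cx, Matrix.cons_val_zero, Matrix.cons_val_one, h0, h5, h2, h3, h4]
  ring

lemma F4_cast (c : Fin 5 → Fin 5 → ℚ) (s t : ℚ) :
    F4 (fun i j => (c i j : ℝ)) ![1, (s : ℝ)] ![1, (t : ℝ)] = ((F4 c ![1, s] ![1, t] : ℚ) : ℝ) := by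
  simp only [F4, bq, cx, Matrix.cons_val_zero, Matrix.cons_val_one]
  push_cast
  ring

/-- **SAC.** -/
theorem sac (h1 : S_THA) (h2 : S_THB) (h3 : S_SNG) (h4 : S_SPE) : S_SAC := by
  intro c hc
  obtain ⟨F1, F2, Z, f1, f2, fZ, n1, n2, hdec⟩ := main_dec h1 h2 h3 h4 hc
  refine ⟨F1, F2, Z, f1, f2, fZ, fun U hUc hU => ?_⟩
  rcases dcN_mazur (fc c) U (fun x hx => ⟨(hU x hx).1, by rw [aeval_fc]; exact (hU x hx).2⟩) hUc
    with h | h
  · left
    refine h.trans (closure_mono ?_)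
    rintro _ ⟨u, ⟨-, hu, -⟩, rfl⟩
    rw [eval_fc] at hu
    exact ⟨u, hu, rfl⟩
  · right
    intro u hu
    obtain ⟨g1, g2⟩ := hU _ hu
    have g3 : u 0 ≠ 0 := by
      intro h0
      apply g1
      change ((u 0 : ℚ) : ℝ) = 0
      rw [h0, Rat.cast_zero]
    have g4 : u 0 ^ 2 = F4 c ![1, u 1] ![1, u 2] := by
      have g5 : ((u 0 : ℚ) : ℝ) ^ 2 = F4 (fun i j => (c i j : ℝ)) ![1, ((u 1 : ℚ) : ℝ)]
        ![1, ((u 2 : ℚ) : ℝ)] := g2
      rw [F4_cast] at g5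
      exact_mod_cast g5
    rcases hdec (u 1) (u 2) (u 0) g3 g4 with h5 | h5 | h5 | h5
    · exact Or.inl h5
    · exact Or.inr (Or.inl h5)
    · exact Or.inr (Or.inr h5)
    · exfalso
      refine Set.disjoint_left.1 h hu (subset_closure ⟨u, ⟨g3, ?_, ?_⟩, rfl⟩)
      · rw [eval_fc]
        exact g4
      · have e : (fun k : Fin 2 => u k.succ) = ![u 1, u 2] := by
          funext k
          fin_cases k <;> rfl
        rw [e]
        exact h5

end Pool.Agent.Q68.TT.Sal
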