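import Pool.Agent.Q35.TT.Stm

/-! # Project TT (helper35), job SEL: a place of good reduction with a small residue field -/

set_option autoImplicit false
set_option linter.unusedSectionVars false

namespace Pool.Agent.Q68.TT

open Pool.Agent.Q35.TT Height Height.AdmissibleAbsValues Function

section
variable {K : Type} [Field K] [AdmissibleAbsValues K]

theorem fin_m (t : K) :
    (fun v : nonarchAbsVal (K := K) => max (v.val t) 1).HasFiniteMulSupport := by
  rcases eq_or_ne t 0 with rfl | ht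
  · have h : (fun v : nonarchAbsVal (K := K) => max (v.val (0 : K)) 1) = fun _ => 1 := by
      funext v
      rw [map_zero]
      exact max_eq_right zero_le_one
    rw [h]
    exact hasFiniteMulSupport_one
  · refine Set.Finite.subset (hasFiniteMulSupport (K := K) ht) fun v hv hv' => hv ?_
    have h1 : v.val t = 1 := hv'
    show max (v.val t) 1 = 1
    rw [h1, max_self]

/-- the product formula with local upper bounds -/
theorem prod_bd (Ca Cn : AbsoluteValue K ℝ → ℝ) (hC : ∀ v, 1 ≤ Cn v)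
    (hCf : (fun v : nonarchAbsVal (K := K) => Cn v.val).HasFiniteMulSupport) (d : ℕ) (x t : K)
    (hx : x ≠ 0) (h1 : ∀ v ∈ archAbsVal (K := K), v x ≤ Ca v * max (v t) 1 ^ d)
    (h2 : ∀ v ∈ nonarchAbsVal (K := K), v x ≤ Cn v * max (v t) 1 ^ d)
    (A : Finset (nonarchAbsVal (K := K))) :
    1 ≤ ((archAbsVal (K := K)).map Ca).prod * (∏ᶠ v : nonarchAbsVal (K := K), Cn v.val) *
      mulHeight₁ t ^ d * ∏ v ∈ A, (v.val x / (Cn v.val * max (v.val t) 1 ^ d)) := by
  classical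
  obtain ⟨r, hr⟩ : ∃ r : nonarchAbsVal (K := K) → ℝ,
    r = fun v => v.val x / (Cn v.val * max (v.val t) 1 ^ d) := ⟨_, rfl⟩
  have hrv : ∀ v, r v = v.val x / (Cn v.val * max (v.val t) 1 ^ d) := fun v => by rw [hr]
  have hf := hasFiniteMulSupport (K := K) hx
  have hm := fin_m t
  have hm1 : ∀ v : nonarchAbsVal (K := K), 1 ≤ max (v.val t) 1 := fun v => le_max_right _ _
  have hden : ∀ v : nonarchAbsVal (K := K), 0 < Cn v.val * max (v.val t) 1 ^ d := fun v =>
    mul_pos (by linarith [hC v.val]) (pow_pos (by linarith [hm1 v]) _)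
  have hmd : (fun v : nonarchAbsVal (K := K) => max (v.val t) 1 ^ d).HasFiniteMulSupport := by
    refine Set.Finite.subset hm fun v hv hv' => hv ?_
    have h3 : max (v.val t) 1 = 1 := hv'
    show max (v.val t) 1 ^ d = 1
    rw [h3, one_pow]
  have hCm : (fun v : nonarchAbsVal (K := K) => Cn v.val * max (v.val t) 1 ^ d).HasFiniteMulSupport := by
    refine Set.Finite.subset (Set.Finite.union hCf hmd) fun v hv => ?_
    by_contra hcon
    rw [Set.mem_union, not_or] at hcon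
    have h3 : Cn v.val = 1 := by
      by_contra h4
      exact hcon.1 h4
    have h5 : max (v.val t) 1 ^ d = 1 := by
      by_contra h4
      exact hcon.2 h4
    apply hv
    show Cn v.val * max (v.val t) 1 ^ d = 1
    rw [h3, h5, one_mul]
  have hrf : r.HasFiniteMulSupport := by
    refine Set.Finite.subset (Set.Finite.union hf hCm) fun v hv => ?_
    by_contra hcon
    rw [Set.mem_union, not_or] at hcon
    have h3 : v.val x = 1 := by
      by_contra h4
      exact hcon.1 h4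
    have h5 : Cn v.val * max (v.val t) 1 ^ d = 1 := by
      by_contra h4
      exact hcon.2 h4
    apply hv
    rw [hrv, h3, h5, div_one]
  have hr0 : ∀ v, 0 ≤ r v := fun v => by
    rw [hrv]
    exact div_nonneg (v.val.nonneg _) (hden v).le
  have hr1 : ∀ v, r v ≤ 1 := fun v => by
    rw [hrv, div_le_one (hden v)]
    exact h2 v.val v.2
  have hsplit : ∏ᶠ v : nonarchAbsVal (K := K), v.val x = (∏ᶠ v, r v) *
      ((∏ᶠ v : nonarchAbsVal (K := K), Cn v.val) *
        (∏ᶠ v : nonarchAbsVal (K := K), max (v.val t) 1) ^ d) := by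
    rw [finprod_pow hm, ← finprod_mul_distrib hCf hmd, ← finprod_mul_distrib hrf hCm]
    refine finprod_congr fun v => ?_
    rw [hrv, div_mul_cancel₀ _ (hden v).ne']
  have hA : ∏ᶠ v, r v ≤ ∏ v ∈ A, r v := by
    have h3 : mulSupport r ⊆ ((hrf.toFinset ∪ A : Finset (nonarchAbsVal (K := K))) :
        Set (nonarchAbsVal (K := K))) := by
      intro v hv
      rw [Finset.coe_union]
      left
      rw [Finset.mem_coe, Set.Finite.mem_toFinset]
      exact hv
    rw [finprod_eq_prod_of_mulSupport_subset r h3,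
      ← Finset.prod_sdiff (Finset.subset_union_right (s₁ := hrf.toFinset) (s₂ := A))]
    exact mul_le_of_le_one_left (Finset.prod_nonneg fun v _ => hr0 v)
      (Finset.prod_le_one (fun v _ => hr0 v) fun v _ => hr1 v)
  have harch : ((archAbsVal (K := K)).map (· x)).prod ≤ ((archAbsVal (K := K)).map Ca).prod *
      ((archAbsVal (K := K)).map fun v => max (v t) 1).prod ^ d := by
    rw [← Multiset.prod_map_pow, ← Multiset.prod_map_mul]
    exact Multiset.prod_map_le_prod_map₀ _ _ (fun v _ => v.nonneg _) h1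
  have hpf := product_formula (K := K) hx
  rw [hsplit] at hpf
  have hCf0 : 0 ≤ ∏ᶠ v : nonarchAbsVal (K := K), Cn v.val :=
    finprod_nonneg fun v => by linarith [hC v.val]
  have hMf0 : 0 ≤ ∏ᶠ v : nonarchAbsVal (K := K), max (v.val t) 1 :=
    finprod_nonneg fun v => by linarith [hm1 v]
  have hR0 : 0 ≤ ∏ᶠ v, r v := finprod_nonneg hr0
  have ha0 : 0 ≤ ((archAbsVal (K := K)).map (· x)).prod :=
    Multiset.prod_nonneg fun y hy => by
      obtain ⟨v, -, rfl⟩ := Multiset.mem_map.1 hy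
      exact v.nonneg _
  have hprodA : ∏ v ∈ A, (v.val x / (Cn v.val * max (v.val t) 1 ^ d)) = ∏ v ∈ A, r v :=
    Finset.prod_congr rfl fun v _ => (hrv v).symm
  rw [hprodA, mulHeight₁_eq]
  refine (le_of_eq hpf.symm).trans ?_
  have hMfd : 0 ≤ (∏ᶠ v : nonarchAbsVal (K := K), Cn v.val) *
      (∏ᶠ v : nonarchAbsVal (K := K), max (v.val t) 1) ^ d := mul_nonneg hCf0 (pow_nonneg hMf0 _)
  calc ((archAbsVal (K := K)).map (· x)).prod * ((∏ᶠ v, r v) *
        ((∏ᶠ v : nonarchAbsVal (K := K), Cn v.val) *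
        (∏ᶠ v : nonarchAbsVal (K := K), max (v.val t) 1) ^ d)) ≤
      (((archAbsVal (K := K)).map Ca).prod *
      ((archAbsVal (K := K)).map fun v => max (v t) 1).prod ^ d) * ((∏ v ∈ A, r v) *
        ((∏ᶠ v : nonarchAbsVal (K := K), Cn v.val) *
        (∏ᶠ v : nonarchAbsVal (K := K), max (v.val t) 1) ^ d)) :=
        mul_le_mul harch (mul_le_mul_of_nonneg_right hA hMfd) (mul_nonneg hR0 hMfd)
          (ha0.trans harch)
    _ = _ := by ring

theorem pow_max_le (v : AbsoluteValue K ℝ) (t : K) {i d : ℕ} (h : i ≤ d) :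
    v t ^ i ≤ max (v t) 1 ^ d :=
  (pow_le_pow_left₀ (v.nonneg t) (le_max_left _ _) i).trans
    (pow_le_pow_right₀ (le_max_right _ _) h)

theorem poly_arch (v : AbsoluteValue K ℝ) (P : Polynomial K) {d : ℕ} (hd : P.natDegree ≤ d)
    (t : K) : v (P.eval t) ≤ (∑ i ∈ Finset.range (d + 1), v (P.coeff i)) * max (v t) 1 ^ d := by
  rw [Polynomial.eval_eq_sum_range' (Nat.lt_succ_of_le hd)]
  have h1 : ∀ s : Finset ℕ, v (∑ i ∈ s, P.coeff i * t ^ i) ≤ ∑ i ∈ s, v (P.coeff i * t ^ i) := by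
    classical
    intro s
    induction s using Finset.induction_on with
    | empty => simp
    | insert a s ha ih =>
      rw [Finset.sum_insert ha, Finset.sum_insert ha]
      exact (v.add_le _ _).trans (by linarith)
  refine (h1 _).trans ?_
  rw [Finset.sum_mul]
  refine Finset.sum_le_sum fun i hi => ?_
  rw [map_mul, map_pow]
  exact mul_le_mul_of_nonneg_left (pow_max_le v t (Nat.lt_succ_iff.1 (Finset.mem_range.1 hi)))
    (v.nonneg _)

theorem na_sum {v : AbsoluteValue K ℝ} (hv : IsNonarchimedean v) {f : ℕ → K} {B : ℝ} (hB : 0 ≤ B)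
    (s : Finset ℕ) (h : ∀ i ∈ s, v (f i) ≤ B) : v (∑ i ∈ s, f i) ≤ B := by
  classical
  induction s using Finset.induction_on with
  | empty => simpa using hB
  | insert a s ha ih =>
    rw [Finset.sum_insert ha]
    exact (hv _ _).trans (max_le (h a (Finset.mem_insert_self _ _))
      (ih fun i hi => h i (Finset.mem_insert_of_mem hi)))

theorem poly_na {v : AbsoluteValue K ℝ} (hv : IsNonarchimedean v) (P : Polynomial K) {d : ℕ}
    (hd : P.natDegree ≤ d) (t : K) : v (P.eval t) ≤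
      (∏ i ∈ Finset.range (d + 1), max (v (P.coeff i)) 1) * max (v t) 1 ^ d := by
  rw [Polynomial.eval_eq_sum_range' (Nat.lt_succ_of_le hd)]
  have hP0 : 0 ≤ ∏ i ∈ Finset.range (d + 1), max (v (P.coeff i)) 1 :=
    Finset.prod_nonneg fun i _ => zero_le_one.trans (le_max_right _ _)
  have hM0 : 0 ≤ max (v t) 1 ^ d := pow_nonneg (zero_le_one.trans (le_max_right _ _)) _
  refine na_sum hv (mul_nonneg hP0 hM0) _ fun i hi => ?_
  rw [map_mul, map_pow]
  refine mul_le_mul ?_ (pow_max_le v t (Nat.lt_succ_iff.1 (Finset.mem_range.1 hi)))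
    (pow_nonneg (v.nonneg _) _) hP0
  refine (le_max_left _ 1).trans ?_
  rw [← Finset.mul_prod_erase _ _ hi]
  refine le_mul_of_one_le_right (zero_le_one.trans (le_max_right _ _)) ?_
  have h1 : (1 : ℝ) = ∏ _j ∈ (Finset.range (d + 1)).erase i, (1 : ℝ) := by
    rw [Finset.prod_const_one]
  exact h1.le.trans (Finset.prod_le_prod (fun _ _ => zero_le_one) fun j _ => le_max_right _ _)

/-- a bad place -/
theorem bad_bd {v : AbsoluteValue K ℝ} {p d : ℕ} (hu : ∀ u : K, v u < 1 → v u * p ≤ 1) {x t : K}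
    (h : v x < max 1 (v t) ^ d) : v x / max 1 (v t) ^ d * p ≤ 1 := by
  rcases le_or_gt (v t) 1 with ht | ht
  · rw [max_eq_left ht, one_pow] at h ⊢
    rw [div_one]
    exact hu x h
  · rw [max_eq_right ht.le] at h ⊢
    have ht0 : 0 < v t := by linarith
    have h1 : v (x / t ^ d) = v x / v t ^ d := by rw [map_div₀, map_pow]
    rw [← h1]
    refine hu _ ?_
    rw [h1, div_lt_one (pow_pos ht0 _)]
    exact h

end

/-- a small residue field -/
def SmallRes {K : Type} [Field K] (v : AbsoluteValue K ℝ) (p n : ℕ) : Prop :=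
  ∃ (F : Type) (_ : Fintype F) (ρ : K → F), Fintype.card F ≤ p ^ n ∧
    ∀ x y, v x ≤ 1 → v y ≤ 1 → ρ x = ρ y → v (x - y) < 1

theorem tri (n : ℕ) : (∑ j ∈ Finset.range n, j) * 2 + n = n * n := by
  induction n with
  | zero => simp
  | succ n ih =>
    rw [Finset.sum_range_succ]
    nlinarith

theorem growth (b j : ℕ) : b * j ≤ (∑ i ∈ Finset.range j, i) + (b + 1) ^ 2 := by
  have h := tri j
  zify at h ⊢
  nlinarith [sq_nonneg (2 * (j : ℤ) - 2 * b - 1)]

/-- **SEL** -/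
theorem sel (hPLC : S_PLC) : S_SEL := by
  classical
  intro K _ _ P d hd S M
  obtain ⟨p₀, hp₀⟩ := hPLC K (S ∪ (Finset.range (d + 1)).image fun i => P.coeff i)
  -- the primes
  have hpr : ∀ i : ℕ, ∃ p : ℕ, p.Prime ∧ 2 ^ i < p ∧ p ≤ 2 * 2 ^ i := fun i =>
    Nat.exists_prime_lt_and_le_two_mul (2 ^ i) (by positivity)
  choose q hq1 hq2 hq3 using hpr
  have hpl : ∀ j : ℕ, ∃ v ∈ nonarchAbsVal (K := K), Gd v (q (p₀ + j)) ∧
      (∀ s ∈ S ∪ (Finset.range (d + 1)).image (fun i => P.coeff i), s ≠ 0 → v s = 1) ∧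
      (∀ u : K, v u < 1 → v u * q (p₀ + j) ≤ 1) ∧
      SmallRes v (q (p₀ + j)) (Module.finrank ℚ K) := by
    intro j
    refine hp₀ _ (hq1 _) ?_
    calc p₀ < 2 ^ p₀ := Nat.lt_two_pow_self
      _ ≤ 2 ^ (p₀ + j) := Nat.pow_le_pow_right (by norm_num) (by omega)
      _ < q (p₀ + j) := hq2 _
  choose v hv hG hS hu hF using hpl
  have hqlt : ∀ i j : ℕ, i < j → q (p₀ + i) < q (p₀ + j) := by
    intro i j hij
    calc q (p₀ + i) ≤ 2 * 2 ^ (p₀ + i) := hq3 _
      _ = 2 ^ (p₀ + i + 1) := by rw [pow_succ]; ring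
      _ ≤ 2 ^ (p₀ + j) := Nat.pow_le_pow_right (by norm_num) (by omega)
      _ < q (p₀ + j) := hq2 _
  have hne : ∀ i j : ℕ, i < j → v i ≠ v j := by
    intro i j hij h
    have h1 := (hG i).lt
    have h2 := (hG j).unit (q (p₀ + i)) (hq1 _).one_lt.le (hqlt i j hij)
    rw [h, h2] at h1
    exact lt_irrefl _ h1
  have hinj : Function.Injective v := by
    intro i j h
    rcases lt_trichotomy i j with h1 | h1 | h1
    · exact absurd h (hne i j h1)
    · exact h1
    · exact absurd h.symm (hne j i h1)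
  -- the constants
  obtain ⟨Ca, hCa⟩ : ∃ Ca : AbsoluteValue K ℝ → ℝ,
    Ca = fun v => ∑ i ∈ Finset.range (d + 1), v (P.coeff i) := ⟨_, rfl⟩
  obtain ⟨Cn, hCn⟩ : ∃ Cn : AbsoluteValue K ℝ → ℝ,
    Cn = fun v => ∏ i ∈ Finset.range (d + 1), max (v (P.coeff i)) 1 := ⟨_, rfl⟩
  have hCn1 : ∀ v, 1 ≤ Cn v := by
    intro v
    rw [hCn]
    have h1 : (1 : ℝ) = ∏ _j ∈ Finset.range (d + 1), (1 : ℝ) := by rw [Finset.prod_const_one]
    beta_reduce
    conv_lhs => rw [h1]
    exact Finset.prod_le_prod (fun _ _ => zero_le_one) fun j _ => le_max_right _ _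
  have hCnf : (fun v : nonarchAbsVal (K := K) => Cn v.val).HasFiniteMulSupport := by
    have h1 : (⋃ i ∈ Finset.range (d + 1), mulSupport fun v : nonarchAbsVal (K := K) =>
        max (v.val (P.coeff i)) 1).Finite := by
      refine Set.Finite.biUnion (Finset.finite_toSet _) fun i _ => fin_m (P.coeff i)
    refine Set.Finite.subset h1 fun w hw => ?_
    by_contra hcon
    apply hw
    show Cn w.val = 1
    rw [hCn]
    refine Finset.prod_eq_one fun i hi => ?_
    by_contra h2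
    exact hcon (Set.mem_iUnion₂.2 ⟨i, hi, h2⟩)
  have hCnv : ∀ j, Cn (v j) = 1 := by
    intro j
    rw [hCn]
    refine Finset.prod_eq_one fun i hi => ?_
    rcases eq_or_ne (P.coeff i) 0 with h0 | h0
    · rw [h0, map_zero]
      exact max_eq_right zero_le_one
    · rw [hS j _ (Finset.mem_union_right _ (Finset.mem_image_of_mem _ hi)) h0, max_self]
  obtain ⟨C0, hC0⟩ : ∃ C0 : ℝ, C0 = |((archAbsVal (K := K)).map Ca).prod *
    (∏ᶠ v : nonarchAbsVal (K := K), Cn v.val)| + 1 := ⟨_, rfl⟩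
  have hC01 : 1 ≤ C0 := by
    rw [hC0]
    linarith [abs_nonneg (((archAbsVal (K := K)).map Ca).prod *
      (∏ᶠ v : nonarchAbsVal (K := K), Cn v.val))]
  have hC0le : ((archAbsVal (K := K)).map Ca).prod *
      (∏ᶠ v : nonarchAbsVal (K := K), Cn v.val) ≤ C0 := by
    rw [hC0]
    linarith [le_abs_self (((archAbsVal (K := K)).map Ca).prod *
      (∏ᶠ v : nonarchAbsVal (K := K), Cn v.val))]
  obtain ⟨n0, hn0⟩ : ∃ n0, n0 = Module.finrank ℚ K := ⟨_, rfl⟩
  obtain ⟨α, hα⟩ : ∃ α, α = M * (1 + 2 * n0 * (p₀ + 1)) := ⟨_, rfl⟩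
  obtain ⟨β, hβ⟩ : ∃ β, β = 2 * M * n0 := ⟨_, rfl⟩
  obtain ⟨B, hB⟩ : ∃ B, B = (d + 1) * α + ((d + 1) * β + 1) ^ 2 := ⟨_, rfl⟩
  refine ⟨2 ^ B * C0, by positivity, fun t ht => ?_⟩
  have hH1 : 1 ≤ mulHeight₁ t := one_le_mulHeight₁ t
  -- all places with an index below `n` bad
  have hbad : ∀ n : ℕ, (∀ j, j < n → v j (P.eval t) < max 1 (v j t) ^ d) →
      (2 : ℝ) ^ (∑ j ∈ Finset.range n, j) ≤ C0 * mulHeight₁ t ^ d := by
    intro n hn
    have h1 := prod_bd Ca Cn hCn1 hCnf d (P.eval t) t ht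
      (fun v _ => by
        rw [hCa]
        exact poly_arch v P hd t)
      (fun v hv => by
        rw [hCn]
        exact poly_na (isNonarchimedean v hv) P hd t)
      ((Finset.range n).image fun j => (⟨v j, hv j⟩ : nonarchAbsVal (K := K)))
    rw [Finset.prod_image (fun i _ j _ h => hinj (congrArg Subtype.val h))] at h1
    have h2 : ∀ j ∈ Finset.range n, v j (P.eval t) / (Cn (v j) * max (v j t) 1 ^ d) ≤
        ((2 : ℝ) ^ j)⁻¹ := by
      intro j hj
      rw [hCnv, one_mul, max_comm]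
      have h3 := bad_bd (hu j) (hn j (Finset.mem_range.1 hj))
      have h4 : (2 : ℝ) ^ j ≤ q (p₀ + j) := by
        have h5 : 2 ^ j ≤ q (p₀ + j) :=
          (Nat.pow_le_pow_right (by norm_num) (by omega)).trans (hq2 (p₀ + j)).le
        exact_mod_cast h5
      have h5 : 0 ≤ v j (P.eval t) / max 1 (v j t) ^ d :=
        div_nonneg ((v j).nonneg _) (pow_nonneg (zero_le_one.trans (le_max_left _ _)) _)
      rw [← one_div, le_div_iff₀ (by positivity)]
      exact (mul_le_mul_of_nonneg_left h4 h5).trans h3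
    have h0 : ∀ j ∈ Finset.range n, 0 ≤ v j (P.eval t) / (Cn (v j) * max (v j t) 1 ^ d) := by
      intro j _
      rw [hCnv, one_mul]
      exact div_nonneg ((v j).nonneg _) (pow_nonneg (zero_le_one.trans (le_max_right _ _)) _)
    have h3 : ∏ j ∈ Finset.range n, v j (P.eval t) / (Cn (v j) * max (v j t) 1 ^ d) ≤
        ((2 : ℝ) ^ (∑ j ∈ Finset.range n, j))⁻¹ := by
      refine (Finset.prod_le_prod h0 h2).trans (le_of_eq ?_)
      rw [Finset.prod_inv_distrib, Finset.prod_pow_eq_pow_sum]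
    have h4 : 0 ≤ ∏ j ∈ Finset.range n, v j (P.eval t) / (Cn (v j) * max (v j t) 1 ^ d) :=
      Finset.prod_nonneg h0
    have h5 : 0 ≤ mulHeight₁ t ^ d := pow_nonneg (by linarith) _
    have h6 : 1 ≤ C0 * mulHeight₁ t ^ d * ((2 : ℝ) ^ (∑ j ∈ Finset.range n, j))⁻¹ := by
      refine h1.trans ?_
      exact mul_le_mul (mul_le_mul_of_nonneg_right hC0le h5) h3 h4
        (mul_nonneg (by linarith) h5)
    rwa [← div_eq_mul_inv, one_le_div (by positivity)] at h6
  -- there is a good place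
  have hex : ∃ j : ℕ, ¬ v j (P.eval t) < max 1 (v j t) ^ d := by
    by_contra hcon
    push Not at hcon
    obtain ⟨n, hn⟩ := pow_unbounded_of_one_lt (C0 * mulHeight₁ t ^ d)
      (by norm_num : (1 : ℝ) < 2)
    have h1 := hbad (n + 1) fun j _ => hcon j
    have h2 : n ≤ ∑ j ∈ Finset.range (n + 1), j := by
      rw [Finset.sum_range_succ]
      omega
    have h3 : (2 : ℝ) ^ n ≤ 2 ^ (∑ j ∈ Finset.range (n + 1), j) :=
      pow_le_pow_right₀ (by norm_num) h2
    linarith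
  obtain ⟨j, hj, hmin⟩ : ∃ j : ℕ, (¬ v j (P.eval t) < max 1 (v j t) ^ d) ∧
      ∀ i, i < j → v i (P.eval t) < max 1 (v i t) ^ d :=
    ⟨Nat.find hex, Nat.find_spec hex, fun i hi => not_not.1 (Nat.find_min hex hi)⟩
  have hkey := hbad j hmin
  refine ⟨v j, hv j, q (p₀ + j), hG j, fun s hs => hS j s (Finset.mem_union_left _ hs), ?_, ?_⟩
  · refine le_antisymm ?_ (not_lt.1 hj)
    have h1 := poly_na (isNonarchimedean (v j) (hv j)) P hd t
    have h2 : ∏ i ∈ Finset.range (d + 1), max (v j (P.coeff i)) 1 = Cn (v j) := by rw [hCn]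
    rw [h2, hCnv, one_mul, max_comm] at h1
    exact h1
  · obtain ⟨F, iF, ρ, hcard, hρ⟩ := hF j
    refine ⟨F, iF, ρ, ?_, hρ⟩
    have hc1 : Fintype.card F ≤ 2 ^ ((p₀ + j + 1) * n0) := by
      refine hcard.trans ?_
      rw [← hn0, pow_mul]
      refine Nat.pow_le_pow_left ?_ _
      calc q (p₀ + j) ≤ 2 * 2 ^ (p₀ + j) := hq3 _
        _ = 2 ^ (p₀ + j + 1) := by rw [pow_succ]; ring
    have hc2 : Fintype.card F ^ 2 + 1 ≤ 2 ^ (1 + 2 * ((p₀ + j + 1) * n0)) := by
      have h1 : Fintype.card F ^ 2 ≤ (2 ^ ((p₀ + j + 1) * n0)) ^ 2 := Nat.pow_le_pow_left hc1 2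
      have h2 : 1 ≤ (2 ^ ((p₀ + j + 1) * n0)) ^ 2 := Nat.one_le_pow _ _ (by positivity)
      have h3 : 2 ^ (1 + 2 * ((p₀ + j + 1) * n0)) = 2 * (2 ^ ((p₀ + j + 1) * n0)) ^ 2 := by
        rw [pow_add, pow_one, ← pow_mul, mul_comm 2 ((p₀ + j + 1) * n0)]
      rw [h3]
      omega
    have hc3 : (((Fintype.card F ^ 2 + 1 : ℕ) : ℝ)) ^ M ≤ 2 ^ (α + β * j) := by
      have h1 : (((Fintype.card F ^ 2 + 1 : ℕ) : ℝ)) ≤ 2 ^ (1 + 2 * ((p₀ + j + 1) * n0)) := by
        exact_mod_cast hc2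
      refine (pow_le_pow_left₀ (by positivity) h1 M).trans (le_of_eq ?_)
      rw [← pow_mul]
      congr 1
      rw [hα, hβ]
      ring
    refine hc3.trans ?_
    have hpos : 0 ≤ 2 ^ B * C0 * mulHeight₁ t := by positivity
    refine (pow_le_pow_iff_left₀ (by positivity) hpos (Nat.succ_ne_zero d)).1 ?_
    have h1 : (d + 1) * (α + β * j) ≤ (∑ i ∈ Finset.range j, i) + B := by
      have h2 := growth ((d + 1) * β) j
      rw [hB]
      nlinarith [h2]
    have h2 : ((2 : ℝ) ^ (α + β * j)) ^ (d + 1) ≤ 2 ^ B * 2 ^ (∑ i ∈ Finset.range j, i) := by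
      rw [← pow_mul, ← pow_add]
      refine pow_le_pow_right₀ (by norm_num) ?_
      rw [mul_comm (α + β * j), add_comm B]
      exact h1
    have h3 : mulHeight₁ t ^ d ≤ mulHeight₁ t ^ (d + 1) := pow_le_pow_right₀ hH1 (Nat.le_succ d)
    have h4 : (2 : ℝ) ^ B * C0 ≤ (2 ^ B * C0) ^ (d + 1) := by
      have h5 : 1 ≤ (2 : ℝ) ^ B * C0 := by
        have h6 : (1 : ℝ) ≤ 2 ^ B := one_le_pow₀ (by norm_num)
        nlinarith
      exact le_self_pow₀ h5 (Nat.succ_ne_zero d)
    have h7 : 0 ≤ mulHeight₁ t ^ (d + 1) := pow_nonneg (by linarith) _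
    calc ((2 : ℝ) ^ (α + β * j)) ^ (d + 1) ≤ 2 ^ B * 2 ^ (∑ i ∈ Finset.range j, i) := h2
      _ ≤ 2 ^ B * (C0 * mulHeight₁ t ^ d) := mul_le_mul_of_nonneg_left hkey (by positivity)
      _ ≤ 2 ^ B * (C0 * mulHeight₁ t ^ (d + 1)) :=
          mul_le_mul_of_nonneg_left (mul_le_mul_of_nonneg_left h3 (by linarith)) (by positivity)
      _ = (2 ^ B * C0) * mulHeight₁ t ^ (d + 1) := by ring
      _ ≤ (2 ^ B * C0) ^ (d + 1) * mulHeight₁ t ^ (d + 1) := mul_le_mul_of_nonneg_right h4 h7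
      _ = (2 ^ B * C0 * mulHeight₁ t) ^ (d + 1) := (mul_pow _ _ _).symm

end Pool.Agent.Q68.TT
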