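import Pool.Agent.Q35.TT.Stm2
import Pool.Agent.Y718.GY

/-!
# Project TT (helper35), job SAL, part A: torsion and density on one quartic curve
-/

set_option autoImplicit false
set_option linter.unusedSectionVars false

open Pool.Agent.Y720.MZ Polynomial

namespace Pool.Agent.Q68.TT.Sal

open Pool.Agent.Q35.TT

/-- a double root -/
lemma dc_double {R : Type*} [CommRing R] (q₀ q₁ q₂ q₃ q₄ r : R)
    (h0 : q₀ + r * q₁ + r ^ 2 * q₂ + r ^ 3 * q₃ + r ^ 4 * q₄ = 0)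
    (h1 : q₁ + 2 * r * q₂ + 3 * r ^ 2 * q₃ + 4 * r ^ 3 * q₄ = 0) : dc q₀ q₁ q₂ q₃ q₄ = 0 := by
  rw [← dc_shift r q₀ q₁ q₂ q₃ q₄, h0, h1, dc, dsc]
  ring

theorem fin_xi {K : Type} [Field K] [CharZero K] {q₀ q₁ q₂ q₃ q₄ : K} (h : dc q₀ q₁ q₂ q₃ q₄ ≠ 0)
    (ξ : K) : {t : K | (q₁ + 2 * q₂ * t + 3 * q₃ * t ^ 2 + 4 * q₄ * t ^ 3) ^ 2 =
      4 * (q₀ + q₁ * t + q₂ * t ^ 2 + q₃ * t ^ 3 + q₄ * t ^ 4) *
        (ξ + q₂ + 2 * q₃ * t + 4 * q₄ * t ^ 2)}.Finite := by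
  by_contra hinf
  obtain ⟨D, hD⟩ : ∃ D : K[X], D = C q₁ + C (2 * q₂) * X + C (3 * q₃) * X ^ 2 + C (4 * q₄) * X ^ 3 :=
    ⟨_, rfl⟩
  obtain ⟨M, hM⟩ : ∃ M : K[X], M = C (ξ + q₂) + C (2 * q₃) * X + C (4 * q₄) * X ^ 2 := ⟨_, rfl⟩
  have e : D ^ 2 = C 4 * qpol q₀ q₁ q₂ q₃ q₄ * M := by
    apply eq_of_infinite_eval_eq
    refine Set.Infinite.mono ?_ hinf
    intro t ht
    change (D ^ 2).eval t = (C 4 * qpol q₀ q₁ q₂ q₃ q₄ * M).eval t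
    have h1 : D.eval t = q₁ + 2 * q₂ * t + 3 * q₃ * t ^ 2 + 4 * q₄ * t ^ 3 := by
      rw [hD]
      simp only [eval_add, eval_mul, eval_C, eval_X, eval_pow]
    have h2 : M.eval t = ξ + q₂ + 2 * q₃ * t + 4 * q₄ * t ^ 2 := by
      rw [hM]
      simp only [eval_add, eval_mul, eval_C, eval_X, eval_pow]
    rw [eval_pow, eval_mul, eval_mul, eval_C, h1, h2, eval_qpol]
    exact ht
  have hdeg : (qpol q₀ q₁ q₂ q₃ q₄).degree ≠ 0 := by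
    intro h0
    have h1 := eq_C_of_degree_eq_zero h0
    obtain ⟨a0, a1, a2, a3, a4⟩ := qpol_coeff q₀ q₁ q₂ q₃ q₄
    rw [h1, coeff_C_of_ne_zero (by norm_num)] at a1 a2 a3 a4
    apply h
    rw [← a1, ← a2, ← a3, ← a4, dc, dsc]
    ring
  obtain ⟨r, hr⟩ := IsAlgClosed.exists_aeval_eq_zero (AlgebraicClosure K) _ hdeg
  have h1 := congrArg (aeval r) e
  rw [map_pow, map_mul, map_mul, hr, mul_zero, zero_mul, pow_eq_zero_iff two_ne_zero] at h1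
  apply h
  obtain ⟨φ, hφ⟩ : ∃ φ, φ = algebraMap K (AlgebraicClosure K) := ⟨_, rfl⟩
  have h2 : dc (φ q₀) (φ q₁) (φ q₂) (φ q₃) (φ q₄) = 0 := by
    refine dc_double _ _ _ _ _ r ?_ ?_
    · rw [← hr, qpol, hφ]
      simp only [map_add, map_mul, map_pow, aeval_C, aeval_X]
      ring
    · rw [← h1, hD, hφ]
      simp only [map_add, map_mul, map_pow, aeval_C, aeval_X, map_ofNat]
      ring
  rw [map_dc] at h2
  exact (map_eq_zero φ).1 h2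

/-- finitely many torsion points on one curve -/
theorem tor_finite {K : Type} [Field K] [NumberField K] (a : Fin 5 → K)
    (h : dc (a 0) (a 1) (a 2) (a 3) (a 4) ≠ 0) :
    {t : K | ∃ (w : K) (n : ℕ), n ≠ 0 ∧ Tor a t w n}.Finite := by
  let _ : DecidableEq K := Classical.decEq K
  obtain ⟨Ξ, hΞ, hto⟩ := torsion_finite (K := K) (a := a 2) (b := a 1 * a 3 - 4 * a 0 * a 4)
    (c := a 1 ^ 2 * a 4 + a 0 * a 3 ^ 2 - 4 * a 0 * a 2 * a 4) h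
  refine (hΞ.biUnion fun ξ _ => fin_xi h ξ).subset ?_
  rintro t ⟨w, n, hn, hw, hwq, hdc, hns, htor⟩
  rw [Set.mem_iUnion₂]
  by_contra hno
  push Not at hno
  have hbq : bq a ![1, t] = a 0 + a 1 * t + a 2 * t ^ 2 + a 3 * t ^ 3 + a 4 * t ^ 4 := by
    simp only [bq, Matrix.cons_val_zero, Matrix.cons_val_one]
    ring
  have ht0 : tay a t 0 = a 1 + 2 * a 2 * t + 3 * a 3 * t ^ 2 + 4 * a 4 * t ^ 3 := rfl
  have ht1 : tay a t 1 = a 2 + 3 * a 3 * t + 6 * a 4 * t ^ 2 := rfl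
  have ht2 : tay a t 2 = a 3 + 4 * a 4 * t := rfl
  have ht3 : tay a t 3 = a 4 := rfl
  refine hto 1 one_ne_zero (a 3 * t + 2 * a 4 * t ^ 2) _ _ _ ?_ ?_ ?_ _ _ hns ?_ n hn htor
  · rw [ht1]
    ring
  · rw [rb, hwq, hbq, ht0, ht2, ht3]
    ring
  · rw [rc, hwq, hbq, ht0, ht1, ht2, ht3]
    ring
  · intro hmem
    apply hno _ hmem
    change (a 1 + 2 * a 2 * t + 3 * a 3 * t ^ 2 + 4 * a 4 * t ^ 3) ^ 2 =
      4 * (a 0 + a 1 * t + a 2 * t ^ 2 + a 3 * t ^ 3 + a 4 * t ^ 4) *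
        (xs w (tay a t 0) (tay a t 1) / 1 + (a 3 * t + 2 * a 4 * t ^ 2) + a 2 + 2 * a 3 * t + 4 * a 4 * t ^ 2)
    rw [xs, ← hbq, ← hwq, ← ht0]
    have h1 : tay a t 0 ^ 2 / (4 * w ^ 2) - tay a t 1 + (a 3 * t + 2 * a 4 * t ^ 2) + a 2 + 2 * a 3 * t +
        4 * a 4 * t ^ 2 = tay a t 0 ^ 2 / (4 * w ^ 2) := by
      rw [ht1]
      ring
    rw [div_one, h1]
    field_simp

lemma torP_of {K : Type} [Field K] [inst : DecidableEq K] {a b c x y : K} {n : ℕ}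
    (h : (cv a b c).toAffine.Nonsingular x y) (h0 : n • (.some x y h : Pt a b c) = 0) :
    TorP a b c x y n := by
  have e : inst = Classical.decEq K := Subsingleton.elim _ _
  subst e
  exact ⟨h, h0⟩

open Pool.Agent.Y718.X in
theorem inf_of {a : Fin 5 → ℚ} {s w : ℚ} (hw : w ≠ 0) (hw2 : w ^ 2 = bq a ![1, s])
    (hd : dc (a 0) (a 1) (a 2) (a 3) (a 4) ≠ 0) (hno : ∀ n, n ≠ 0 → ¬ Tor a s w n) :
    Inf (qpol (bq a ![1, s]) (tay a s 0) (tay a s 1) (tay a s 2) (tay a s 3)) := by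
  obtain ⟨c0, c1, c2, c3, c4⟩ := qpol_coeff (bq a ![1, s]) (tay a s 0) (tay a s 1) (tay a s 2) (tay a s 3)
  have hDb : Db (qpol (bq a ![1, s]) (tay a s 0) (tay a s 1) (tay a s 2) (tay a s 3)) ≠ 0 := by
    rw [Db, Pool.Agent.Y718.X.Ab, Bb, Cb, c0, c1, c2, c3, c4]
    have h1 := dc_shift s (a 0) (a 1) (a 2) (a 3) (a 4)
    have h2 : bq a ![1, s] = a 0 + s * a 1 + s ^ 2 * a 2 + s ^ 3 * a 3 + s ^ 4 * a 4 := by
      simp only [bq, Matrix.cons_val_zero, Matrix.cons_val_one]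
      ring
    have h3 : tay a s 0 = a 1 + 2 * s * a 2 + 3 * s ^ 2 * a 3 + 4 * s ^ 3 * a 4 := by
      change a 1 + 2 * a 2 * s + 3 * a 3 * s ^ 2 + 4 * a 4 * s ^ 3 = _
      ring
    have h4 : tay a s 1 = a 2 + 3 * s * a 3 + 6 * s ^ 2 * a 4 := by
      change a 2 + 3 * a 3 * s + 6 * a 4 * s ^ 2 = _
      ring
    have h5 : tay a s 2 = a 3 + 4 * s * a 4 := by
      change a 3 + 4 * a 4 * s = _
      ring
    have h6 : tay a s 3 = a 4 := rfl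
    rw [h2, h3, h4, h5, h6]
    rw [dc] at h1
    rw [h1]
    exact hd
  have hw3 : w ^ 2 = (qpol (bq a ![1, s]) (tay a s 0) (tay a s 1) (tay a s 2) (tay a s 3)).coeff 0 := by
    rw [c0, hw2]
  refine ⟨hDb, w, hw, hw3, ?_⟩
  rw [InfW, bb_eq hw3, cb_eq hw3, Pool.Agent.Y718.X.Ab, c1, c2, c3, c4]
  intro h n hn h0
  exact hno n hn ⟨hw, hw2, hd, torP_of h h0⟩

lemma eps {S : Set ℚ} (hS : S.Finite) : (0 : ℚ) ∉ S → ∃ ε : ℝ, 0 < ε ∧ ∀ t ∈ S, ε ≤ |(t : ℝ)| := by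
  refine Set.Finite.induction_on S hS ?_ ?_
  · intro _
    exact ⟨1, one_pos, fun t ht => absurd ht (Set.notMem_empty t)⟩
  · intro a S _ _ ih h0
    rw [Set.mem_insert_iff, not_or] at h0
    obtain ⟨ε, hε, h⟩ := ih h0.2
    refine ⟨min ε |(a : ℝ)|, lt_min hε ?_, ?_⟩
    · rw [abs_pos]
      exact_mod_cast fun h1 : a = 0 => h0.1 h1.symm
    · intro t ht
      rcases Set.mem_insert_iff.1 ht with rfl | ht
      · exact min_le_right _ _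
      · exact (min_le_left _ _).trans (h t ht)

open Pool.Agent.Y718.X in
/-- nonzero square values outside of a finite set -/
theorem dense_of {a₀ a₁ a₂ a₃ a₄ : ℚ} (h : Inf (qpol a₀ a₁ a₂ a₃ a₄)) {B : Set ℚ} (hB : B.Finite) :
    ∃ t w' : ℚ, t ∉ B ∧ w' ≠ 0 ∧ w' ^ 2 = a₀ + a₁ * t + a₂ * t ^ 2 + a₃ * t ^ 3 + a₄ * t ^ 4 := by
  obtain ⟨c0, c1, c2, c3, c4⟩ := qpol_coeff a₀ a₁ a₂ a₃ a₄
  obtain ⟨hDb, w, hw, hw3, hI⟩ := h
  rw [InfW, bb_eq hw3, cb_eq hw3, Pool.Agent.Y718.X.Ab, c1, c2, c3, c4] at hI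
  rw [Db, bb_eq hw3, cb_eq hw3, Pool.Agent.Y718.X.Ab, c1, c2, c3, c4] at hDb
  obtain ⟨ε, hε, hε2⟩ := eps (hB.subset (Set.sdiff_subset (t := {0}))) (by simp)
  have hwa : 0 < |(w : ℝ)| := by
    rw [abs_pos]
    exact_mod_cast hw
  obtain ⟨t, Y, ht0, ht, hY, hYq⟩ := quartic_dense (algebraMap ℚ ℝ) (w := w) (q₁ := a₁) (q₂ := a₂)
    (q₃ := a₃) (q₄ := a₄) hw hDb hI (ε := min ε |(w : ℝ)|) (lt_min hε hwa)
  refine ⟨t, Y, ?_, ?_, ?_⟩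
  · intro htB
    have h1 := hε2 t ⟨htB, ht0⟩
    have h2 : ‖algebraMap ℚ ℝ t‖ = |(t : ℝ)| := by
      rw [Real.norm_eq_abs]
      rfl
    rw [h2] at ht
    have h3 := lt_of_lt_of_le ht (min_le_left _ _)
    linarith
  · rintro rfl
    have h2 : ‖algebraMap ℚ ℝ (0 - w)‖ = |(w : ℝ)| := by
      rw [zero_sub, map_neg, norm_neg, Real.norm_eq_abs]
      rfl
    rw [h2] at hY
    have h3 := lt_of_lt_of_le hY (min_le_right _ _)
    linarith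
  · rw [hYq, hw3, c0]

end Pool.Agent.Q68.TT.Sal
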