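import Pool.Agent.Q68.TT.SalA

/-!
# Project TT (helper35), job SAL, part B: nondegenerate points
-/

set_option autoImplicit false
set_option linter.unusedSectionVars false

open Pool.Agent.Y720.MZ MvPolynomial

namespace Pool.Agent.Q68.TT.Sal

open Pool.Agent.Q35.TT Pool.Agent.Y718.X

lemma bq_one (a : Fin 5 → ℚ) (s : ℚ) :
    bq a ![1, s] = a 0 + a 1 * s + a 2 * s ^ 2 + a 3 * s ^ 3 + a 4 * s ^ 4 := by
  simp only [bq, Matrix.cons_val_zero, Matrix.cons_val_one]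
  ring

/-- Taylor expansion -/
lemma bq_add (a : Fin 5 → ℚ) (s t : ℚ) :
    bq a ![1, s + t] = bq a ![1, s] + tay a s 0 * t + tay a s 1 * t ^ 2 + tay a s 2 * t ^ 3 +
      tay a s 3 * t ^ 4 := by
  have ht0 : tay a s 0 = a 1 + 2 * a 2 * s + 3 * a 3 * s ^ 2 + 4 * a 4 * s ^ 3 := rfl
  have ht1 : tay a s 1 = a 2 + 3 * a 3 * s + 6 * a 4 * s ^ 2 := rfl
  have ht2 : tay a s 2 = a 3 + 4 * a 4 * s := rfl
  have ht3 : tay a s 3 = a 4 := rfl
  rw [bq_one, bq_one, ht0, ht1, ht2, ht3]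
  ring

/-- the polynomial of the family, as a quartic in the other variable -/
lemma F4_cy {R : Type} [CommRing R] (c : Fin 5 → Fin 5 → R) (x y : Fin 2 → R) :
    bq (cy c x) y = F4 c x y := by
  simp only [F4, bq, cx, cy]
  ring

/-- the polynomial `f` -/
noncomputable def fc (c : Fin 5 → Fin 5 → ℚ) : MvPolynomial (Fin 2) ℚ :=
  ∑ i : Fin 5, ∑ j : Fin 5, C (c i j) * X 0 ^ (i : ℕ) * X 1 ^ (j : ℕ)

lemma eval_fc (c : Fin 5 → Fin 5 → ℚ) (z : Fin 2 → ℚ) :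
    eval z (fc c) = F4 c ![1, z 0] ![1, z 1] := by
  have h1 : eval z (fc c) = ∑ i : Fin 5, ∑ j : Fin 5, c i j * z 0 ^ (i : ℕ) * z 1 ^ (j : ℕ) := by
    rw [fc, map_sum]
    refine Finset.sum_congr rfl fun i _ => ?_
    rw [map_sum]
    refine Finset.sum_congr rfl fun j _ => ?_
    rw [map_mul, map_mul, map_pow, map_pow, eval_C, eval_X, eval_X]
  have h3 : ((3 : Fin 5) : ℕ) = 3 := rfl
  have h4 : ((4 : Fin 5) : ℕ) = 4 := rfl
  have h0 : ((0 : Fin 5) : ℕ) = 0 := rfl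
  have h5 : ((1 : Fin 5) : ℕ) = 1 := rfl
  have h2 : ((2 : Fin 5) : ℕ) = 2 := rfl
  rw [h1]
  simp only [Fin.sum_univ_five, F4, bq, cx, Matrix.cons_val_zero, Matrix.cons_val_one, h0, h5, h2, h3, h4]
  ring

lemma lk0 (c : Fin 5 → Fin 5 → ℚ) (z : Fin 2 → ℚ) : lk (fc c) z (Pi.single 0 1) =
    qpol (bq (cx c ![1, z 1]) ![1, z 0]) (tay (cx c ![1, z 1]) (z 0) 0) (tay (cx c ![1, z 1]) (z 0) 1)
      (tay (cx c ![1, z 1]) (z 0) 2) (tay (cx c ![1, z 1]) (z 0) 3) := by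
  refine Polynomial.funext fun t => ?_
  rw [lk_eval, eval_qpol, eval_fc, ← bq_add]
  have h0 : (z + t • (Pi.single 0 1 : Fin 2 → ℚ)) 0 = z 0 + t := by simp
  have h1 : (z + t • (Pi.single 0 1 : Fin 2 → ℚ)) 1 = z 1 := by simp
  rw [h0, h1]
  rfl

lemma lk1 (c : Fin 5 → Fin 5 → ℚ) (z : Fin 2 → ℚ) : lk (fc c) z (Pi.single 1 1) =
    qpol (bq (cy c ![1, z 0]) ![1, z 1]) (tay (cy c ![1, z 0]) (z 1) 0) (tay (cy c ![1, z 0]) (z 1) 1)
      (tay (cy c ![1, z 0]) (z 1) 2) (tay (cy c ![1, z 0]) (z 1) 3) := by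
  refine Polynomial.funext fun t => ?_
  rw [lk_eval, eval_qpol, eval_fc, ← bq_add]
  have h0 : (z + t • (Pi.single 1 1 : Fin 2 → ℚ)) 0 = z 0 := by simp
  have h1 : (z + t • (Pi.single 1 1 : Fin 2 → ℚ)) 1 = z 1 + t := by simp
  rw [h0, h1, F4_cy]

lemma qpol_deg {a₀ a₁ a₂ a₃ a₄ : ℚ} : (qpol a₀ a₁ a₂ a₃ a₄).natDegree ≤ 4 := by
  unfold qpol
  compute_degree

lemma deg_le (c : Fin 5 → Fin 5 → ℚ) (k : Fin 2) : DegLe (fc c) (Pi.single k 1) 4 := by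
  intro z
  fin_cases k
  · change (lk (fc c) z (Pi.single 0 1)).natDegree ≤ 4
    rw [lk0]
    exact qpol_deg
  · change (lk (fc c) z (Pi.single 1 1)).natDegree ≤ 4
    rw [lk1]
    exact qpol_deg

/-- a criterion -/
lemma NX_of (c : Fin 5 → Fin 5 → ℚ) (z : Fin 2 → ℚ) (k l : Fin 2) (hkl : k ≠ l)
    (h0 : Inf (lk (fc c) z (Pi.single k 1))) (r : ℚ)
    (h1 : Inf (lk (fc c) (z + r • Pi.single k 1) (Pi.single l 1))) : NX (fc c) z := by
  have hinj : Function.Injective (![k, l] : Fin 2 → Fin 2) := by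
    intro a b hab
    fin_cases a <;> fin_cases b <;> simp at hab ⊢
    · exact hkl hab
    · exact hkl hab.symm
  refine ⟨fun i => Pi.single ((![k, l] : Fin 2 → Fin 2) i) 1, ?_, ?_⟩
  · have h2 := (Pi.basisFun ℚ (Fin 2)).linearIndependent.comp _ hinj
    have h3 : (fun i => Pi.single ((![k, l] : Fin 2 → Fin 2) i) (1 : ℚ) : Fin 2 → Fin 2 → ℚ) =
        (⇑(Pi.basisFun ℚ (Fin 2))) ∘ (![k, l] : Fin 2 → Fin 2) := by
      funext i
      rw [Function.comp_apply, Pi.basisFun_apply]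
    rw [h3]
    exact h2
  · intro i
    refine ⟨deg_le c _, Or.inr ?_⟩
    fin_cases i
    · refine ⟨0, fun _ _ => rfl, ?_⟩
      have h2 : z + ∑ j : Fin 2, (0 : Fin 2 → ℚ) j • (Pi.single ((![k, l] : Fin 2 → Fin 2) j) 1 : Fin 2 → ℚ) = z := by
        simp
      rw [h2]
      exact h0
    · refine ⟨![r, 0], fun m hm => ?_, ?_⟩
      · fin_cases m
        · exact absurd hm (by decide)
        · rfl
      have h2 : z + ∑ j : Fin 2, (![r, 0] : Fin 2 → ℚ) j • (Pi.single ((![k, l] : Fin 2 → Fin 2) j) 1 : Fin 2 → ℚ) =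
          z + r • Pi.single k 1 := by
        rw [Fin.sum_univ_two]
        simp
      rw [h2]
      exact h1

/-- moving `t` first -/
theorem caseA (hB : S_THB) {c : Fin 5 → Fin 5 → ℚ} {s t w : ℚ}
    (hd : dc (cy c ![1, s] 0) (cy c ![1, s] 1) (cy c ![1, s] 2) (cy c ![1, s] 3) (cy c ![1, s] 4) ≠ 0)
    (hND : ND (cy c ![1, s]) (gd c s))
    (hfin : {t : ℚ | dc (cx c ![1, t] 0) (cx c ![1, t] 1) (cx c ![1, t] 2) (cx c ![1, t] 3)
      (cx c ![1, t] 4) = 0}.Finite)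
    (hw : w ≠ 0) (hw2 : w ^ 2 = F4 c ![1, s] ![1, t]) (hY : ¬ TorY c s t) : NX (fc c) ![s, t] := by
  have h0 : Inf (lk (fc c) ![s, t] (Pi.single 1 1)) := by
    rw [lk1]
    exact inf_of (a := cy c ![1, s]) (s := t) hw (by rw [F4_cy]; exact hw2) hd
      fun n hn h => hY ⟨w, n, hn, h⟩
  have h1 := h0
  rw [lk1] at h1
  have hBf : {r : ℚ | t + r ∈ {t' : ℚ | TorX c s t'} ∪ {t : ℚ | dc (cx c ![1, t] 0) (cx c ![1, t] 1)
      (cx c ![1, t] 2) (cx c ![1, t] 3) (cx c ![1, t] 4) = 0}}.Finite := by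
    refine Set.Finite.preimage ?_ ((hB ℚ c s hND).union hfin)
    intro a _ b _ hab
    exact add_left_cancel hab
  obtain ⟨r, w', hr, hw', hw'2⟩ := dense_of h1 hBf
  have e0 : (![s, t] : Fin 2 → ℚ) 0 = s := rfl
  have e1 : (![s, t] : Fin 2 → ℚ) 1 = t := rfl
  rw [e0, e1, ← bq_add, F4_cy] at hw'2
  rw [Set.mem_ofPred_eq, Set.mem_union, not_or] at hr
  refine NX_of c _ 1 0 (by decide) h0 r ?_
  have h2 : (![s, t] : Fin 2 → ℚ) + r • (Pi.single 1 1 : Fin 2 → ℚ) = ![s, t + r] := by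
    funext i
    fin_cases i <;> simp
  rw [h2, lk0]
  exact inf_of (a := cx c ![1, t + r]) (s := s) hw' hw'2 hr.2 fun n hn h => hr.1 ⟨w', n, hn, h⟩

/-- moving `s` first -/
theorem caseB (hB : S_THB) {c : Fin 5 → Fin 5 → ℚ} {s t w : ℚ}
    (hd : dc (cx c ![1, t] 0) (cx c ![1, t] 1) (cx c ![1, t] 2) (cx c ![1, t] 3) (cx c ![1, t] 4) ≠ 0)
    (hND : ND (cy (fun i j => c j i) ![1, t]) (gd (fun i j => c j i) t))
    (hfin : {s : ℚ | dc (cy c ![1, s] 0) (cy c ![1, s] 1) (cy c ![1, s] 2) (cy c ![1, s] 3)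
      (cy c ![1, s] 4) = 0}.Finite)
    (hw : w ≠ 0) (hw2 : w ^ 2 = F4 c ![1, s] ![1, t]) (hX : ¬ TorX c s t) : NX (fc c) ![s, t] := by
  have h0 : Inf (lk (fc c) ![s, t] (Pi.single 0 1)) := by
    rw [lk0]
    exact inf_of (a := cx c ![1, t]) (s := s) hw hw2 hd
      fun n hn h => hX ⟨w, n, hn, h⟩
  have h1 := h0
  rw [lk0] at h1
  have hTY : {s' : ℚ | TorY c s' t}.Finite := hB ℚ (fun i j => c j i) t hND
  have hBf : {r : ℚ | s + r ∈ {s' : ℚ | TorY c s' t} ∪ {s : ℚ | dc (cy c ![1, s] 0) (cy c ![1, s] 1)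
      (cy c ![1, s] 2) (cy c ![1, s] 3) (cy c ![1, s] 4) = 0}}.Finite := by
    refine Set.Finite.preimage ?_ (hTY.union hfin)
    intro a _ b _ hab
    exact add_left_cancel hab
  obtain ⟨r, w', hr, hw', hw'2⟩ := dense_of h1 hBf
  have e0 : (![s, t] : Fin 2 → ℚ) 0 = s := rfl
  have e1 : (![s, t] : Fin 2 → ℚ) 1 = t := rfl
  rw [e0, e1, ← bq_add] at hw'2
  rw [Set.mem_ofPred_eq, Set.mem_union, not_or] at hr
  refine NX_of c _ 0 1 (by decide) h0 r ?_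
  have h2 : (![s, t] : Fin 2 → ℚ) + r • (Pi.single 0 1 : Fin 2 → ℚ) = ![s + r, t] := by
    funext i
    fin_cases i <;> simp
  rw [h2, lk1]
  refine inf_of (a := cy c ![1, s + r]) (s := t) hw' ?_ hr.2 fun n hn h => hr.1 ⟨w', n, hn, h⟩
  rw [F4_cy]
  exact hw'2

end Pool.Agent.Q68.TT.Sal
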